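import Mathlib

/-!
A lower bound for the rank of an abelian group by a quotient of exponent two.
-/

namespace Pool.Agent.QuarticRank

universe u

/-- Lifts of an independent family of the quotient `G ⧸ N` are independent over the integers,
when `2 G ≤ N` and `N` contains the torsion of `2`-power order. -/
theorem linearIndependent_lift {G : Type u} [AddCommGroup G] (N : AddSubgroup G)
    (htor : ∀ (k : ℕ) (x : G), (2 ^ k : ℕ) • x = 0 → x ∈ N)
    [Module (ZMod 2) (G ⧸ N)] {ι : Type*} (b : ι → G ⧸ N) (hb : LinearIndependent (ZMod 2) b)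
    (g : ι → G) (hg : ∀ i, (QuotientAddGroup.mk (g i) : G ⧸ N) = b i) :
    LinearIndependent ℤ g := by
  rw [linearIndependent_iff']
  intro s c hc
  have key : ∀ k : ℕ, ∀ i ∈ s, (2 : ℤ) ^ k ∣ c i := by
    intro k
    induction k with
    | zero => intro i _; simp
    | succ k ih =>
      choose! c' hc' using ih
      have h1 : ((2 ^ k : ℕ)) • (∑ i ∈ s, c' i • g i) = 0 := by
        rw [Finset.smul_sum, ← hc]
        apply Finset.sum_congr rfl
        intro i hi
        rw [hc' i hi, mul_smul, ← natCast_zsmul (c' i • g i) (2 ^ k)]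
        norm_num
      have h2 := htor k _ h1
      have h3 : (∑ i ∈ s, ((c' i : ℤ) : ZMod 2) • b i) = 0 := by
        have h4 : (QuotientAddGroup.mk (∑ i ∈ s, c' i • g i) : G ⧸ N) = 0 :=
          (QuotientAddGroup.eq_zero_iff _).2 h2
        rw [← h4]
        rw [QuotientAddGroup.mk_sum]
        apply Finset.sum_congr rfl
        intro i _
        rw [QuotientAddGroup.mk_zsmul, hg i]
        exact Int.cast_smul_eq_zsmul (ZMod 2) (c' i) (b i)
      have h5 := (linearIndependent_iff'.1 hb) s _ h3
      intro i hi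
      have h6 : (2 : ℤ) ∣ c' i := by
        have := h5 i hi
        exact_mod_cast (ZMod.intCast_zmod_eq_zero_iff_dvd (c' i) 2).1 this
      rw [hc' i hi, pow_succ]
      exact mul_dvd_mul_left _ h6
  intro i hi
  by_contra hne
  have h7 := key (c i).natAbs i hi
  have h8 : (c i).natAbs < 2 ^ (c i).natAbs := Nat.lt_two_pow_self
  have h9 : (2 : ℤ) ^ (c i).natAbs ≤ |c i| := Int.le_of_dvd (abs_pos.2 hne) ((dvd_abs _ _).2 h7)
  have h10 : ((c i).natAbs : ℤ) = |c i| := Int.natCast_natAbs (c i)
  have h11 : ((c i).natAbs : ℤ) < 2 ^ (c i).natAbs := by exact_mod_cast h8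
  omega

/-- If `2 G ≤ N`, if `N` contains all elements of `2`-power order, and if the elements `g i` are
pairwise incongruent modulo `N`, then their number is at most `2 ^ rank G`. -/
theorem card_le_two_pow_rank {G : Type u} [AddCommGroup G] (N : AddSubgroup G)
    (h2 : ∀ x : G, x + x ∈ N)
    (htor : ∀ (k : ℕ) (x : G), (2 ^ k : ℕ) • x = 0 → x ∈ N)
    {ι : Type} [Fintype ι] (g : ι → G) (hg : ∀ i j, i ≠ j → g i - g j ∉ N) :
    ((Fintype.card ι : ℕ) : Cardinal.{u}) ≤ 2 ^ Module.rank ℤ G := by
  classical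
  have hV : ∀ x : G ⧸ N, 2 • x = 0 := by
    intro x
    induction x using QuotientAddGroup.induction_on with
    | H z =>
      rw [← QuotientAddGroup.mk_nsmul, QuotientAddGroup.eq_zero_iff, two_nsmul]
      exact h2 z
  letI : Module (ZMod 2) (G ⧸ N) := AddCommGroup.zmodModule hV
  let b := Module.Basis.ofVectorSpace (ZMod 2) (G ⧸ N)
  have hsurj : ∀ i, ∃ z : G, (QuotientAddGroup.mk z : G ⧸ N) = b i := fun i =>
    QuotientAddGroup.mk_surjective (b i)
  choose lift hlift using hsurj
  have hli : LinearIndependent ℤ lift :=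
    linearIndependent_lift N htor b b.linearIndependent lift hlift
  have hle := hli.cardinal_le_rank
  have hinj : Function.Injective (fun i => (QuotientAddGroup.mk (g i) : G ⧸ N)) := by
    intro i j hij
    by_contra hne
    apply hg i j hne
    have : (QuotientAddGroup.mk (g i) : G ⧸ N) = QuotientAddGroup.mk (g j) := hij
    rw [← QuotientAddGroup.eq_zero_iff, QuotientAddGroup.mk_sub, this, sub_self]
  rcases finite_or_infinite (Module.Basis.ofVectorSpaceIndex (ZMod 2) (G ⧸ N)) with hfin | hinf
  · haveI := Fintype.ofFinite (Module.Basis.ofVectorSpaceIndex (ZMod 2) (G ⧸ N))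
    haveI : Fintype (G ⧸ N) := Module.fintypeOfFintype b
    have h1 := Fintype.card_le_of_injective _ hinj
    rw [Module.card_fintype b, ZMod.card] at h1
    calc ((Fintype.card ι : ℕ) : Cardinal.{u})
        ≤ ((2 ^ Fintype.card (Module.Basis.ofVectorSpaceIndex (ZMod 2) (G ⧸ N)) : ℕ) :
            Cardinal.{u}) := by exact_mod_cast h1
      _ = 2 ^ Cardinal.mk (Module.Basis.ofVectorSpaceIndex (ZMod 2) (G ⧸ N)) := by
          rw [Cardinal.mk_fintype]; push_cast; rw [Cardinal.power_natCast]
      _ ≤ 2 ^ Module.rank ℤ G := Cardinal.power_le_power_left two_ne_zero hle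
  · have h1 : Cardinal.aleph0 ≤ Module.rank ℤ G :=
      le_trans (Cardinal.aleph0_le_mk _) hle
    have h2' : Cardinal.aleph0 ≤ 2 ^ Module.rank ℤ G :=
      le_trans h1 (Cardinal.cantor _).le
    exact le_trans (Cardinal.natCast_lt_aleph0).le h2'

end Pool.Agent.QuarticRank
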