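import Mathlib
import Pool.Agent.QuarticRank.Rank

/-!
The descent map `P ↦ x(P) - θ` on the curve `y² = x³ + c x`, where `θ² = -c` is not a rational
square.
-/

namespace Pool.Agent.QuarticRank

open WeierstrassCurve WeierstrassCurve.Affine

/-- The Weierstrass curve `y² = x³ + c x` over the rational numbers. -/
def curve (c : ℚ) : WeierstrassCurve.Affine ℚ := ⟨0, 0, 0, c, 0⟩

theorem curve_equation (c x y : ℚ) : (curve c).Equation x y ↔ y ^ 2 = x ^ 3 + c * x := by
  rw [WeierstrassCurve.Affine.equation_iff]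
  simp [curve]

theorem curve_nonsingular {c x y : ℚ} (hc : c ≠ 0) (h : y ^ 2 = x ^ 3 + c * x) :
    (curve c).Nonsingular x y := by
  rw [WeierstrassCurve.Affine.nonsingular_iff', curve_equation]
  refine ⟨h, ?_⟩
  by_cases hy : y = 0
  · left
    simp only [curve]
    intro h0
    subst hy
    have h1 : x * (x ^ 2 + c) = 0 := by linear_combination -h
    rcases mul_eq_zero.1 h1 with hx | hx
    · subst hx
      apply hc
      linear_combination -h0
    · apply hc
      linear_combination (3 / 2) * hx + h0 / 2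
  · right
    simp only [curve]
    intro h0
    apply hy
    linear_combination h0 / 2

/-- A point of `y² = x³ + c x` with given coordinates. -/
def pt {c x y : ℚ} (hc : c ≠ 0) (h : y ^ 2 = x ^ 3 + c * x) : (curve c).Point :=
  Point.some x y (curve_nonsingular hc h)

/-- The quadratic algebra `ℚ[θ]` with `θ² = -c`. -/
abbrev QK (c : ℚ) : Type := QuadraticAlgebra ℚ (-c) 0

/-- The value `x(P) - θ` (and `1` at infinity). -/
def mval (c : ℚ) : (curve c).Point → QK c
  | .zero => 1
  | .some x _ _ => ⟨x, -1⟩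

theorem mval_zero (c : ℚ) : mval c 0 = 1 := rfl

theorem mval_some {c x y : ℚ} (h : (curve c).Nonsingular x y) :
    mval c (Point.some x y h) = ⟨x, -1⟩ := rfl

theorem mval_pt {c x y : ℚ} (hc : c ≠ 0) (h : y ^ 2 = x ^ 3 + c * x) :
    mval c (pt hc h) = ⟨x, -1⟩ := rfl

theorem mval_neg {c : ℚ} (P : (curve c).Point) : mval c (-P) = mval c P := by
  rcases P with _ | ⟨x, y, h⟩
  · rfl
  · rfl

/-- The three symmetric functions of the abscissae of three collinear points. -/
theorem symm_rel {c x₁ y₁ x₂ y₂ : ℚ} (h₁ : (curve c).Equation x₁ y₁)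
    (h₂ : (curve c).Equation x₂ y₂) (hxy : ¬(x₁ = x₂ ∧ y₁ = (curve c).negY x₂ y₂)) (t : ℚ) :
    (t - x₁) * (t - x₂) * (t - (curve c).addX x₁ x₂ ((curve c).slope x₁ x₂ y₁ y₂)) =
      t ^ 3 + c * t - ((curve c).slope x₁ x₂ y₁ y₂ * (t - x₁) + y₁) ^ 2 := by
  have h := addPolynomial_slope h₁ h₂ hxy
  rw [addPolynomial_eq] at h
  have h' := congrArg (Polynomial.eval t) h
  simp only [Cubic.toPoly, Polynomial.eval_neg, Polynomial.eval_add, Polynomial.eval_mul,
    Polynomial.eval_C, Polynomial.eval_pow, Polynomial.eval_X, Polynomial.eval_sub] at h'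
  simp only [curve] at h' ⊢
  linear_combination h'

theorem mval_add {c : ℚ} (P Q : (curve c).Point) :
    IsSquare (mval c P * mval c Q * mval c (P + Q)) := by
  rcases P with _ | ⟨x₁, y₁, h₁⟩
  · refine ⟨mval c Q, ?_⟩
    have : (Point.zero + Q : (curve c).Point) = Q := zero_add Q
    rw [this]
    change 1 * _ * _ = _
    ring
  rcases Q with _ | ⟨x₂, y₂, h₂⟩
  · refine ⟨mval c (Point.some x₁ y₁ h₁), ?_⟩
    have : (Point.some x₁ y₁ h₁ + Point.zero : (curve c).Point) = Point.some x₁ y₁ h₁ :=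
      add_zero _
    rw [this]
    change _ * 1 * _ = _
    ring
  by_cases hxy : x₁ = x₂ ∧ y₁ = (curve c).negY x₂ y₂
  · rw [Point.add_of_Y_eq hxy.1 hxy.2, mval_some, mval_some, mval_zero, hxy.1]
    exact ⟨⟨x₂, -1⟩, by ring⟩
  · rw [Point.add_some hxy, mval_some, mval_some, mval_some]
    have h0 := symm_rel h₁.1 h₂.1 hxy 0
    have h1 := symm_rel h₁.1 h₂.1 hxy 1
    have h2 := symm_rel h₁.1 h₂.1 hxy (-1)
    set x₃ := (curve c).addX x₁ x₂ ((curve c).slope x₁ x₂ y₁ y₂)
    set l := (curve c).slope x₁ x₂ y₁ y₂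
    refine ⟨⟨y₁ - x₁ * l, l⟩, ?_⟩
    ext
    · simp
      linear_combination -h0 + c * (h1 + h2 - 2 * h0) / 2
    · simp
      linear_combination -(h1 - h2) / 2

end Pool.Agent.QuarticRank
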