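import Mathlib
import Pool.Agent.QuarticRank.Descent

/-!
The subgroup of points whose descent value is trivial modulo the value of the `2`-torsion point,
and the resulting lower bound for the rank.
-/

namespace Pool.Agent.QuarticRank

open WeierstrassCurve WeierstrassCurve.Affine

section field

variable {c : ℚ} [hc : Fact (∀ r : ℚ, r ^ 2 ≠ -c + 0 * r)]

theorem mval_ne_zero (P : (curve c).Point) : mval c P ≠ 0 := by
  rcases P with _ | ⟨x, y, h⟩
  · exact one_ne_zero
  · intro h0
    have h1 := congrArg QuadraticAlgebra.im h0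
    rw [mval_some] at h1
    norm_num at h1

theorem isSquare_cancel {K : Type*} [Field K] {a b : K} (ha : a ≠ 0) (h1 : IsSquare a)
    (h2 : IsSquare (a * b)) : IsSquare b := by
  obtain ⟨r, hr⟩ := h1
  obtain ⟨s, hs⟩ := h2
  have hr0 : r ≠ 0 := by
    rintro rfl
    exact ha (by rw [hr]; ring)
  refine ⟨s / r, ?_⟩
  field_simp
  have : r ^ 2 * b = s ^ 2 := by rw [sq, ← hr, hs, sq]
  linear_combination this

/-- `Rel P z` says that `z` is a nonzero representative of the descent class of `P`. -/
def Rel (P : (curve c).Point) (z : QK c) : Prop := z ≠ 0 ∧ IsSquare (mval c P * z)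

theorem rel_self (P : (curve c).Point) : Rel P (mval c P) :=
  ⟨mval_ne_zero P, ⟨mval c P, rfl⟩⟩

theorem rel_zero : Rel (0 : (curve c).Point) 1 :=
  ⟨one_ne_zero, ⟨1, by rw [mval_zero]⟩⟩

theorem rel_neg {P : (curve c).Point} {z : QK c} (h : Rel P z) : Rel (-P) z := by
  refine ⟨h.1, ?_⟩
  rw [mval_neg]
  exact h.2

theorem rel_add {P Q : (curve c).Point} {a b : QK c} (hP : Rel P a) (hQ : Rel Q b) :
    Rel (P + Q) (a * b) := by
  refine ⟨mul_ne_zero hP.1 hQ.1, ?_⟩
  have h1 := mval_add P Q
  have h2 : IsSquare ((mval c P * a) * (mval c Q * b)) := hP.2.mul hQ.2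
  have h3 : IsSquare ((mval c P * mval c Q * mval c (P + Q)) *
      ((mval c P * a) * (mval c Q * b))) := h1.mul h2
  have h4 : (mval c P * mval c Q * mval c (P + Q)) * ((mval c P * a) * (mval c Q * b)) =
      ((mval c P * mval c Q) * (mval c P * mval c Q)) * (mval c (P + Q) * (a * b)) := by ring
  rw [h4] at h3
  have hne : mval c P * mval c Q ≠ 0 := mul_ne_zero (mval_ne_zero P) (mval_ne_zero Q)
  exact isSquare_cancel (mul_ne_zero hne hne) ⟨_, rfl⟩ h3

theorem rel_congr {P : (curve c).Point} {a b : QK c} (hP : Rel P a) (hb : b ≠ 0)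
    (hab : IsSquare (a * b)) : Rel P b := by
  refine ⟨hb, ?_⟩
  have h1 : IsSquare ((mval c P * a) * (a * b)) := hP.2.mul hab
  have h2 : (mval c P * a) * (a * b) = (a * a) * (mval c P * b) := by ring
  rw [h2] at h1
  exact isSquare_cancel (mul_ne_zero hP.1 hP.1) ⟨_, rfl⟩ h1

theorem c_ne_zero : c ≠ 0 := by
  intro h
  apply hc.out 0
  rw [h]
  norm_num

variable (c) in
/-- The point `(0, 0)`. -/
def T0 : (curve c).Point := pt (x := 0) (y := 0) (c_ne_zero (c := c)) (by ring)

variable (c) in
/-- The element `-θ`. -/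
def mth : QK c := ⟨0, -1⟩

theorem mth_ne_zero : mth c ≠ 0 := by
  intro h0
  have h1 := congrArg QuadraticAlgebra.im h0
  simp [mth] at h1

theorem mval_T0 : mval c (T0 c) = mth c := rfl

theorem rel_T0 : Rel (T0 c) (mth c) := rel_self (T0 c)

variable (c) in
/-- Points whose descent class is trivial or the class of `(0, 0)`. -/
def NN : AddSubgroup (curve c).Point where
  carrier := {P | Rel P 1 ∨ Rel P (mth c)}
  zero_mem' := Or.inl rel_zero
  add_mem' := by
    rintro P Q (hP | hP) (hQ | hQ)
    · left
      simpa using rel_add hP hQ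
    · right
      simpa using rel_add hP hQ
    · right
      simpa using rel_add hP hQ
    · left
      have h := rel_add hP hQ
      exact rel_congr h one_ne_zero ⟨mth c, by ring⟩
  neg_mem' := by
    rintro P (hP | hP)
    · exact Or.inl (rel_neg hP)
    · exact Or.inr (rel_neg hP)

theorem mem_NN {P : (curve c).Point} : P ∈ NN c ↔ Rel P 1 ∨ Rel P (mth c) := Iff.rfl

theorem T0_mem : T0 c ∈ NN c := Or.inr rel_T0

theorem double_rel (P : (curve c).Point) : Rel (P + P) 1 := by
  have h := rel_add (rel_self P) (rel_self P)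
  exact rel_congr h one_ne_zero ⟨mval c P, by ring⟩

theorem double_mem (P : (curve c).Point) : P + P ∈ NN c := Or.inl (double_rel P)

theorem eq_zero_or_T0 {P : (curve c).Point} (h : P + P = 0) : P = 0 ∨ P = T0 c := by
  rcases P with _ | ⟨x, y, hxy⟩
  · left; rfl
  · right
    have h1 : Point.some x y hxy = -Point.some x y hxy := by
      rw [← sub_eq_zero, sub_neg_eq_add]
      exact h
    rw [Point.neg_some, Point.some.injEq] at h1
    have hy : y = 0 := by
      have := h1.2
      simp only [negY, curve] at this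
      linarith
    have heq := (curve_equation c x y).1 hxy.1
    have hx : x = 0 := by
      rw [hy] at heq
      have h2 : x * (x ^ 2 + c) = 0 := by linear_combination -heq
      rcases mul_eq_zero.1 h2 with h3 | h3
      · exact h3
      · exfalso
        apply hc.out x
        linear_combination h3
    subst hx
    subst hy
    rfl

theorem tor_mem (hT : ¬ IsSquare (mth c)) (k : ℕ) :
    ∀ P : (curve c).Point, (2 ^ k : ℕ) • P = 0 → P ∈ NN c := by
  induction k with
  | zero =>
    intro P hP
    rw [pow_zero, one_smul] at hP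
    rw [hP]
    exact (NN c).zero_mem
  | succ k ih =>
    intro P hP
    have h1 : (2 ^ k : ℕ) • P + (2 ^ k : ℕ) • P = 0 := by
      rw [← add_smul, ← two_mul, ← pow_succ']
      exact hP
    rcases eq_zero_or_T0 h1 with h2 | h2
    · exact ih P h2
    · rcases k with _ | j
      · rw [pow_zero, one_smul] at h2
        rw [h2]
        exact T0_mem
      · exfalso
        have h3 : (2 ^ j : ℕ) • P + (2 ^ j : ℕ) • P = T0 c := by
          rw [← add_smul, ← two_mul, ← pow_succ']
          exact h2
        have h4 := double_rel ((2 ^ j : ℕ) • P)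
        rw [h3] at h4
        apply hT
        have h5 := h4.2
        rw [mul_one, mval_T0] at h5
        exact h5

/-- The rank bound: points with pairwise inequivalent descent classes. -/
theorem card_le_of_rel (hT : ¬ IsSquare (mth c)) {ι : Type} [Fintype ι]
    (g : ι → (curve c).Point) (F : ι → QK c) (hF : ∀ i, Rel (g i) (F i))
    (h : ∀ i j, i ≠ j → ¬ IsSquare (F i * F j) ∧ ¬ IsSquare (F i * F j * mth c)) :
    ((Fintype.card ι : ℕ) : Cardinal) ≤ 2 ^ Module.rank ℤ (curve c).Point := by
  apply card_le_two_pow_rank (NN c) double_mem (tor_mem hT) g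
  intro i j hij hmem
  have h1 : Rel (g i - g j) (F i * F j) := by
    rw [sub_eq_add_neg]
    exact rel_add (hF i) (rel_neg (hF j))
  have hne := mval_ne_zero (g i - g j)
  rcases mem_NN.1 hmem with h2 | h2
  · apply (h i j hij).1
    have h3 := h2.2
    rw [mul_one] at h3
    exact isSquare_cancel hne h3 h1.2
  · apply (h i j hij).2
    have h3 : IsSquare ((mval c (g i - g j) * mth c) * (mval c (g i - g j) * (F i * F j))) :=
      h2.2.mul h1.2
    have h4 : (mval c (g i - g j) * mth c) * (mval c (g i - g j) * (F i * F j)) =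
        (mval c (g i - g j) * mval c (g i - g j)) * (F i * F j * mth c) := by ring
    rw [h4] at h3
    exact isSquare_cancel (mul_ne_zero hne hne) ⟨_, rfl⟩ h3

end field

end Pool.Agent.QuarticRank
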