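import Mathlib

/-!
Elementary facts on two representations of a squarefree integer as a sum of two fourth powers.
-/

namespace Pool.Agent.QuarticRank

/-- `(a, b)` is a representation of `n` as a sum of two positive fourth powers, `a ≤ b`. -/
structure IsRep (n a b : ℕ) : Prop where
  pos : 0 < a
  le : a ≤ b
  eq : a ^ 4 + b ^ 4 = n

namespace IsRep

variable {n a b c d : ℕ}

theorem pos' (h : IsRep n a b) : 0 < b := lt_of_lt_of_le h.pos h.le

theorem coprime (hsq : Squarefree n) (h : IsRep n a b) : Nat.Coprime a b := by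
  have h1 : Nat.gcd a b * Nat.gcd a b ∣ n := by
    have h2 : (Nat.gcd a b) ^ 4 ∣ n := by
      rw [← h.eq]
      exact dvd_add (pow_dvd_pow_of_dvd (Nat.gcd_dvd_left a b) 4)
        (pow_dvd_pow_of_dvd (Nat.gcd_dvd_right a b) 4)
    refine dvd_trans ?_ h2
    exact ⟨Nat.gcd a b * Nat.gcd a b, by ring⟩
  exact Nat.isUnit_iff.1 (hsq _ h1)

theorem ne (hsq : Squarefree n) (hn : 2 < n) (h : IsRep n a b) : a ≠ b := by
  intro hab
  have h1 := h.coprime hsq
  rw [hab, Nat.coprime_self] at h1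
  have h2 := h.eq
  rw [hab, h1] at h2
  omega

theorem lt (hsq : Squarefree n) (hn : 2 < n) (h : IsRep n a b) : a < b :=
  lt_of_le_of_ne h.le (h.ne hsq hn)

theorem not_dvd_left (hsq : Squarefree n) (h : IsRep n a b) {p : ℕ} (hp : p.Prime)
    (hpn : p ∣ n) : ¬ p ∣ a := by
  intro hpa
  have h1 : p ∣ b ^ 4 := by
    have h2 : p ∣ a ^ 4 + b ^ 4 := by rw [h.eq]; exact hpn
    exact (Nat.dvd_add_right (dvd_pow hpa (by norm_num))).1 h2
  have h3 : p ∣ b := hp.dvd_of_dvd_pow h1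
  have h4 : p ∣ Nat.gcd a b := Nat.dvd_gcd hpa h3
  rw [h.coprime hsq] at h4
  exact hp.one_lt.ne' (Nat.dvd_one.1 h4)

theorem not_dvd_right (hsq : Squarefree n) (h : IsRep n a b) {p : ℕ} (hp : p.Prime)
    (hpn : p ∣ n) : ¬ p ∣ b := by
  intro hpb
  have h1 : p ∣ a ^ 4 := by
    have h2 : p ∣ a ^ 4 + b ^ 4 := by rw [h.eq]; exact hpn
    exact (Nat.dvd_add_left (dvd_pow hpb (by norm_num))).1 h2
  have h3 : p ∣ a := hp.dvd_of_dvd_pow h1
  exact h.not_dvd_left hsq hp hpn h3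

theorem eqZ (h : IsRep n a b) : (a : ℤ) ^ 4 + (b : ℤ) ^ 4 = (n : ℤ) := by
  rw [← h.eq]
  push_cast
  ring

end IsRep

/-- A squarefree number divides everything its prime factors divide. -/
theorem squarefree_dvd {n : ℕ} (hsq : Squarefree n) {X : ℤ}
    (h : ∀ p : ℕ, p.Prime → p ∣ n → (p : ℤ) ∣ X) : (n : ℤ) ∣ X := by
  rw [Int.natCast_dvd]
  rw [← Nat.prod_primeFactors_of_squarefree hsq]
  apply Finset.prod_primes_dvd
  · intro p hp
    exact (Nat.prime_of_mem_primeFactors hp).prime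
  · intro p hp
    rw [← Int.natCast_dvd]
    exact h p (Nat.prime_of_mem_primeFactors hp) (Nat.dvd_of_mem_primeFactors hp)

/-- The parity of the two numbers of a representation of an even squarefree number. -/
theorem IsRep.odd {n a b : ℕ} (hsq : Squarefree n) (h : IsRep n a b) (h2 : 2 ∣ n) :
    (∃ k : ℤ, (a : ℤ) = 2 * k + 1) ∧ (∃ k : ℤ, (b : ℤ) = 2 * k + 1) := by
  have h3 := h.not_dvd_left hsq Nat.prime_two h2
  have h4 := h.not_dvd_right hsq Nat.prime_two h2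
  constructor
  · exact ⟨(a / 2 : ℕ), by omega⟩
  · exact ⟨(b / 2 : ℕ), by omega⟩

/-- Divisibility by `n` from divisibility by its odd prime factors and evenness. -/
theorem dvd_of_odd_primes {n : ℕ} (hsq : Squarefree n) {X : ℤ} (h2 : 2 ∣ n → (2 : ℤ) ∣ X)
    (h : ∀ p : ℕ, p.Prime → p ≠ 2 → p ∣ n → (p : ℤ) ∣ X) : (n : ℤ) ∣ X := by
  apply squarefree_dvd hsq
  intro p hp hpn
  by_cases hp2 : p = 2
  · subst hp2
    exact_mod_cast h2 hpn
  · exact h p hp hp2 hpn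

theorem eq_zero_of_dvd_of_lt {n : ℕ} {X : ℤ} (h : (n : ℤ) ∣ X) (h1 : X < n) (h2 : -(n : ℤ) < X) :
    X = 0 := Int.eq_zero_of_abs_lt_dvd h (abs_lt.2 ⟨h2, h1⟩)

theorem eq_of_mul_eq {a b c d : ℕ} (ha : 0 < a) (hc : 0 < c) (h1 : Nat.Coprime a b)
    (h2 : Nat.Coprime c d) (h : a * d = b * c) : a = c ∧ b = d := by
  have h3 : a ∣ c := by
    have : a ∣ b * c := ⟨d, h.symm⟩
    exact h1.dvd_of_dvd_mul_left this
  have h4 : c ∣ a := by
    have : c ∣ a * d := ⟨b, by rw [h]; ring⟩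
    exact h2.dvd_of_dvd_mul_right this
  have h5 : a = c := Nat.dvd_antisymm h3 h4
  refine ⟨h5, ?_⟩
  rw [h5, mul_comm b c] at h
  exact (Nat.eq_of_mul_eq_mul_left hc h).symm

section two

variable {n a b c d : ℕ}

/-- The number whose vanishing modulo `p` says that the two labels in `ℚ(i)` agree. -/
def XI (a b c d : ℤ) : ℤ := a ^ 2 * d ^ 2 - b ^ 2 * c ^ 2

/-- The number whose vanishing modulo `p` says that the two labels in `ℚ(√2)` agree. -/
def XS (a b c d : ℤ) : ℤ := a * b * (c ^ 2 + d ^ 2) - c * d * (a ^ 2 + b ^ 2)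

theorem XI_ne_zero (hsq : Squarefree n) (h : IsRep n a b) (h' : IsRep n c d)
    (hne : (a, b) ≠ (c, d)) : XI a b c d ≠ 0 := by
  intro h0
  have h1 : ((a : ℤ) * d - b * c) * (a * d + b * c) = 0 := by
    unfold XI at h0
    linear_combination h0
  have hpos : (0 : ℤ) < a * d + b * c := by
    have := h.pos; have := h.pos'; have := h'.pos; have := h'.pos'
    positivity
  have h2 : (a : ℤ) * d - b * c = 0 := by
    rcases mul_eq_zero.1 h1 with h3 | h3
    · exact h3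
    · exact absurd h3 hpos.ne'
  have h3 : a * d = b * c := by
    have : (a : ℤ) * d = b * c := by linarith
    exact_mod_cast this
  have h4 := eq_of_mul_eq h.pos h'.pos (h.coprime hsq) (h'.coprime hsq) h3
  exact hne (by rw [h4.1, h4.2])

theorem YI_ne_zero (hsq : Squarefree n) (hn : 2 < n) (h : IsRep n a b) (h' : IsRep n c d) :
    (a : ℤ) * c - b * d ≠ 0 := by
  intro h0
  have h3 : a * c = b * d := by
    have : (a : ℤ) * c = b * d := by linarith
    exact_mod_cast this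
  have h4 := eq_of_mul_eq h.pos h'.pos' (h.coprime hsq) (h'.coprime hsq).symm h3
  have h5 := h.lt hsq hn
  have h6 := h'.lt hsq hn
  omega

theorem bounds (h : IsRep n a b) : (a : ℤ) ^ 4 < n ∧ (b : ℤ) ^ 4 < n := by
  have h1 := h.eqZ
  have h2 : (0 : ℤ) < (a : ℤ) ^ 4 := by have := h.pos; positivity
  have h3 : (0 : ℤ) < (b : ℤ) ^ 4 := by have := h.pos'; positivity
  constructor <;> linarith

/-- Not all odd prime factors of `n` give equal labels in `ℚ(i)`. -/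
theorem exists_not_dvd_XI (hsq : Squarefree n) (h : IsRep n a b) (h' : IsRep n c d)
    (hne : (a, b) ≠ (c, d)) : ∃ p : ℕ, p.Prime ∧ p ≠ 2 ∧ p ∣ n ∧ ¬ (p : ℤ) ∣ XI a b c d := by
  by_contra hcon
  push Not at hcon
  apply XI_ne_zero hsq h h' hne
  have hd : (n : ℤ) ∣ XI a b c d := by
    apply dvd_of_odd_primes hsq _ hcon
    intro h2
    obtain ⟨⟨k1, h3⟩, ⟨k2, h4⟩⟩ := h.odd hsq h2
    obtain ⟨⟨k3, h5⟩, ⟨k4, h6⟩⟩ := h'.odd hsq h2
    unfold XI
    rw [h3, h4, h5, h6]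
    exact ⟨2 * (k1^2+k1+k4^2+k4-k2^2-k2-k3^2-k3) + 8*((k1^2+k1)*(k4^2+k4)-(k2^2+k2)*(k3^2+k3)),
      by ring⟩
  obtain ⟨ha, hb⟩ := bounds h
  obtain ⟨hc, hd'⟩ := bounds h'
  apply eq_zero_of_dvd_of_lt hd
  · unfold XI
    nlinarith [sq_nonneg ((a : ℤ) ^ 2 - (d : ℤ) ^ 2), sq_nonneg ((b : ℤ) * c)]
  · unfold XI
    nlinarith [sq_nonneg ((b : ℤ) ^ 2 - (c : ℤ) ^ 2), sq_nonneg ((a : ℤ) * d)]

/-- Some odd prime factor of `n` gives equal labels in `ℚ(i)`. -/
theorem exists_dvd_XI (hsq : Squarefree n) (hn : 2 < n) (h : IsRep n a b) (h' : IsRep n c d) :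
    ∃ p : ℕ, p.Prime ∧ p ≠ 2 ∧ p ∣ n ∧ (p : ℤ) ∣ XI a b c d := by
  by_contra hcon
  push Not at hcon
  have hY : (n : ℤ) ∣ ((a : ℤ) * c - b * d) * (a * c + b * d) := by
    apply dvd_of_odd_primes hsq
    · intro h2
      obtain ⟨⟨k1, h3⟩, ⟨k2, h4⟩⟩ := h.odd hsq h2
      obtain ⟨⟨k3, h5⟩, ⟨k4, h6⟩⟩ := h'.odd hsq h2
      rw [h3, h4, h5, h6]
      exact ⟨2 * (k1^2+k1+k3^2+k3-k2^2-k2-k4^2-k4) + 8*((k1^2+k1)*(k3^2+k3)-(k2^2+k2)*(k4^2+k4)),
        by ring⟩
    · intro p hp hp2 hpn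
      have h1 := hcon p hp hp2 hpn
      have h2 : (p : ℤ) ∣ XI a b c d * (((a : ℤ) * c - b * d) * (a * c + b * d)) := by
        have h3 : XI a b c d * (((a : ℤ) * c - b * d) * (a * c + b * d)) =
            (n : ℤ) * (c ^ 2 * d ^ 2 - a ^ 2 * b ^ 2) := by
          have e1 := h.eqZ
          have e2 := h'.eqZ
          unfold XI
          linear_combination (c ^ 2 * d ^ 2 : ℤ) * e1 - (a ^ 2 * b ^ 2 : ℤ) * e2
        rw [h3]
        exact Dvd.dvd.mul_right (by exact_mod_cast hpn) _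
      exact ((Nat.prime_iff_prime_int.1 hp).dvd_or_dvd h2).resolve_left h1
  have hpos : (0 : ℤ) < a * c + b * d := by
    have := h.pos; have := h.pos'; have := h'.pos; have := h'.pos'
    positivity
  have h0 : ((a : ℤ) * c - b * d) * (a * c + b * d) = 0 := by
    obtain ⟨ha, hb⟩ := bounds h
    obtain ⟨hc, hd'⟩ := bounds h'
    apply eq_zero_of_dvd_of_lt hY
    · nlinarith [sq_nonneg ((a : ℤ) ^ 2 - (c : ℤ) ^ 2), sq_nonneg ((b : ℤ) * d)]
    · nlinarith [sq_nonneg ((b : ℤ) ^ 2 - (d : ℤ) ^ 2), sq_nonneg ((a : ℤ) * c)]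
  rcases mul_eq_zero.1 h0 with h1 | h1
  · exact YI_ne_zero hsq hn h h' h1
  · exact hpos.ne' h1

end two

end Pool.Agent.QuarticRank
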