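import Mathlib
import Pool.Agent.QuarticRank.Arith

/-!
The splitting by the labels in `ℚ(√2)`.
-/

namespace Pool.Agent.QuarticRank

section two

variable {n a b c d : ℕ}

theorem prod_sq_lt (hsq : Squarefree n) (hn : 2 < n) (h : IsRep n a b) :
    2 * ((a : ℤ) * b) ^ 2 < n := by
  have h1 := h.lt hsq hn
  have h2 := h.eqZ
  have h3 : (0 : ℤ) < (b : ℤ) ^ 2 - (a : ℤ) ^ 2 := by
    have h4 : (a : ℤ) < b := by exact_mod_cast h1
    have h5 : (0 : ℤ) ≤ a := Int.natCast_nonneg a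
    nlinarith
  nlinarith [mul_pos h3 h3]

theorem sum_sq_le (h : IsRep n a b) : ((a : ℤ) ^ 2 + (b : ℤ) ^ 2) ^ 2 ≤ 2 * n := by
  have h2 := h.eqZ
  nlinarith [sq_nonneg ((a : ℤ) ^ 2 - (b : ℤ) ^ 2)]

theorem cross_lt (hsq : Squarefree n) (hn : 2 < n) (h : IsRep n a b) (h' : IsRep n c d) :
    (a : ℤ) * b * ((c : ℤ) ^ 2 + (d : ℤ) ^ 2) < n := by
  have h1 := prod_sq_lt hsq hn h
  have h2 := sum_sq_le h'
  have h3 : (0 : ℤ) < n := by exact_mod_cast (by omega : 0 < n)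
  by_contra hcon
  push Not at hcon
  have h4 : (n : ℤ) ^ 2 ≤ ((a : ℤ) * b * ((c : ℤ) ^ 2 + (d : ℤ) ^ 2)) ^ 2 :=
    pow_le_pow_left₀ h3.le hcon 2
  have h5 : (0 : ℤ) ≤ ((a : ℤ) * b) ^ 2 := sq_nonneg _
  have h6 : (0 : ℤ) < ((c : ℤ) ^ 2 + (d : ℤ) ^ 2) ^ 2 := by
    have := h'.pos
    positivity
  nlinarith [mul_le_mul h1.le h2 h6.le h3.le, mul_pos (sub_pos.2 h1) h6]

theorem XS_eq (a b c d : ℤ) : XS a b c d = -((a * d - b * c) * (a * c - b * d)) := by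
  unfold XS
  ring

theorem XS_ne_zero (hsq : Squarefree n) (hn : 2 < n) (h : IsRep n a b) (h' : IsRep n c d)
    (hne : (a, b) ≠ (c, d)) : XS a b c d ≠ 0 := by
  intro h0
  rw [XS_eq, neg_eq_zero] at h0
  rcases mul_eq_zero.1 h0 with h1 | h1
  · apply XI_ne_zero hsq h h' hne
    unfold XI
    linear_combination ((a : ℤ) * d + b * c) * h1
  · exact YI_ne_zero hsq hn h h' h1

/-- Not all odd prime factors of `n` give equal labels in `ℚ(√2)`. -/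
theorem exists_not_dvd_XS (hsq : Squarefree n) (hn : 2 < n) (h : IsRep n a b)
    (h' : IsRep n c d) (hne : (a, b) ≠ (c, d)) :
    ∃ p : ℕ, p.Prime ∧ p ≠ 2 ∧ p ∣ n ∧ ¬ (p : ℤ) ∣ XS a b c d := by
  by_contra hcon
  push Not at hcon
  apply XS_ne_zero hsq hn h h' hne
  have hd : (n : ℤ) ∣ XS a b c d := by
    apply dvd_of_odd_primes hsq _ hcon
    intro h2
    obtain ⟨⟨k1, h3⟩, ⟨k2, h4⟩⟩ := h.odd hsq h2
    obtain ⟨⟨k3, h5⟩, ⟨k4, h6⟩⟩ := h'.odd hsq h2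
    unfold XS
    rw [h3, h4, h5, h6]
    exact ⟨(2*k1+1)*(2*k2+1)*(2*k3^2+2*k3+2*k4^2+2*k4+1)
      -(2*k3+1)*(2*k4+1)*(2*k1^2+2*k1+2*k2^2+2*k2+1), by ring⟩
  have h1 := cross_lt hsq hn h h'
  have h2 := cross_lt hsq hn h' h
  have h3 : (0 : ℤ) < (a : ℤ) * b * ((c : ℤ) ^ 2 + (d : ℤ) ^ 2) := by
    have := h.pos; have := h.pos'; have := h'.pos
    positivity
  have h4 : (0 : ℤ) < (c : ℤ) * d * ((a : ℤ) ^ 2 + (b : ℤ) ^ 2) := by
    have := h.pos; have := h'.pos'; have := h'.pos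
    positivity
  apply eq_zero_of_dvd_of_lt hd
  · unfold XS
    linarith
  · unfold XS
    linarith

theorem not_twelve {m k : ℤ} (hk : k ≠ 0) (h : m ^ 2 = 12 * k ^ 2) : False := by
  have h1 : (m / k : ℚ) ^ 2 = 12 := by
    have hk' : (k : ℚ) ≠ 0 := by exact_mod_cast hk
    have h' : (m : ℚ) ^ 2 = 12 * (k : ℚ) ^ 2 := by exact_mod_cast h
    rw [div_pow, h']
    field_simp
  have h2 : IsSquare (12 : ℚ) := ⟨(m / k : ℚ), by rw [← h1]; ring⟩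
  have h3 : ¬ IsSquare (12 : ℚ) := by norm_num
  exact h3 h2

/-- Some odd prime factor of `n` gives equal labels in `ℚ(√2)`. -/
theorem exists_dvd_XS (hsq : Squarefree n) (hn : 2 < n) (h : IsRep n a b) (h' : IsRep n c d) :
    ∃ p : ℕ, p.Prime ∧ p ≠ 2 ∧ p ∣ n ∧ (p : ℤ) ∣ XS a b c d := by
  by_contra hcon
  push Not at hcon
  set U : ℤ := (a : ℤ) * b * ((c : ℤ) ^ 2 + (d : ℤ) ^ 2) with hU
  set V : ℤ := (c : ℤ) * d * ((a : ℤ) ^ 2 + (b : ℤ) ^ 2) with hV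
  have e1 := h.eqZ
  have e2 := h'.eqZ
  have hXU : XS a b c d = U - V := rfl
  have hprod : XS a b c d * (U + V) = (n : ℤ) * (a ^ 2 * b ^ 2 - c ^ 2 * d ^ 2) := by
    rw [hXU, hU, hV]
    linear_combination (a ^ 2 * b ^ 2 : ℤ) * e2 - (c ^ 2 * d ^ 2 : ℤ) * e1
  have hY : (n : ℤ) ∣ U + V := by
    apply dvd_of_odd_primes hsq
    · intro h2
      obtain ⟨⟨k1, h3⟩, ⟨k2, h4⟩⟩ := h.odd hsq h2
      obtain ⟨⟨k3, h5⟩, ⟨k4, h6⟩⟩ := h'.odd hsq h2
      rw [hU, hV, h3, h4, h5, h6]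
      exact ⟨(2*k1+1)*(2*k2+1)*(2*k3^2+2*k3+2*k4^2+2*k4+1)
        +(2*k3+1)*(2*k4+1)*(2*k1^2+2*k1+2*k2^2+2*k2+1), by ring⟩
    · intro p hp hp2 hpn
      have h1 := hcon p hp hp2 hpn
      have h2 : (p : ℤ) ∣ XS a b c d * (U + V) := by
        rw [hprod]
        exact Dvd.dvd.mul_right (by exact_mod_cast hpn) _
      exact ((Nat.prime_iff_prime_int.1 hp).dvd_or_dvd h2).resolve_left h1
  have h1 : U < n := cross_lt hsq hn h h'
  have h2 : V < n := cross_lt hsq hn h' h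
  have h3 : (0 : ℤ) < U := by
    have := h.pos; have := h.pos'; have := h'.pos
    positivity
  have h4 : (0 : ℤ) < V := by
    have := h.pos; have := h'.pos'; have := h'.pos
    positivity
  have h5 : U + V - n = 0 := by
    apply eq_zero_of_dvd_of_lt (dvd_sub hY dvd_rfl) <;> linarith
  have hn0 : (n : ℤ) ≠ 0 := by
    have : n ≠ 0 := by omega
    exact_mod_cast this
  have h6 : U - V = a ^ 2 * b ^ 2 - c ^ 2 * d ^ 2 := by
    have h7 : (n : ℤ) * (U - V) = (n : ℤ) * (a ^ 2 * b ^ 2 - c ^ 2 * d ^ 2) := by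
      rw [← hprod, hXU]
      linear_combination -(U - V) * h5
    exact mul_left_cancel₀ hn0 h7
  have hU2 : U ^ 2 = (a * b) ^ 2 * (n + 2 * (c * d) ^ 2) := by
    rw [hU]
    linear_combination ((a : ℤ) * b) ^ 2 * e2
  have h8 : 2 * U = n + (a * b) ^ 2 - (c * d) ^ 2 := by
    linear_combination h5 + h6
  have h9 : ((n : ℤ) - (a * b) ^ 2 - (c * d) ^ 2) ^ 2 = 12 * ((a * b) * (c * d)) ^ 2 := by
    linear_combination 4 * hU2 - (2 * U + (n + (a * b) ^ 2 - (c * d) ^ 2)) * h8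
  refine not_twelve (k := (a * b) * (c * d)) ?_ h9
  have := h.pos; have := h.pos'; have := h'.pos; have := h'.pos'
  positivity

end two

end Pool.Agent.QuarticRank
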