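import Mathlib
import Pool.Agent.QuarticRank.Arith2

/-!
Labels of the representations modulo the odd prime factors of `n`, and the valuations which
detect them.
-/

namespace Pool.Agent.QuarticRank

section labels

variable {n : ℕ} {p : ℕ} [hp : Fact p.Prime]

theorem cast_ne_zero_of_rep {a b : ℕ} (hsq : Squarefree n) (h : IsRep n a b) (hpn : p ∣ n) :
    ((a : ZMod p)) ≠ 0 ∧ ((b : ZMod p)) ≠ 0 := by
  constructor
  · intro h0
    exact h.not_dvd_left hsq hp.out hpn ((ZMod.natCast_eq_zero_iff a p).1 h0)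
  · intro h0
    exact h.not_dvd_right hsq hp.out hpn ((ZMod.natCast_eq_zero_iff b p).1 h0)

theorem cast_rep {a b : ℕ} (h : IsRep n a b) (hpn : p ∣ n) :
    (a : ZMod p) ^ 4 + (b : ZMod p) ^ 4 = 0 := by
  have h1 : ((a ^ 4 + b ^ 4 : ℕ) : ZMod p) = 0 := by
    rw [h.eq]
    exact (ZMod.natCast_eq_zero_iff n p).2 hpn
  push_cast at h1
  exact h1

theorem two_ne_zero_zmod (hp2 : p ≠ 2) : (2 : ZMod p) ≠ 0 := by
  intro h0
  have h1 : ((2 : ℕ) : ZMod p) = 0 := by exact_mod_cast h0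
  have h2 := (ZMod.natCast_eq_zero_iff 2 p).1 h1
  exact hp2 ((Nat.prime_dvd_prime_iff_eq hp.out Nat.prime_two).1 h2)

/-- The label in `ℚ(√2)`: a square root of `2` modulo `p`. -/
def labS (p : ℕ) [Fact p.Prime] (a b : ℕ) : ZMod p :=
  ((a : ZMod p) ^ 2 + (b : ZMod p) ^ 2) / ((a : ZMod p) * b)

/-- The label in `ℚ(i)`: a square root of `-1` modulo `p`. -/
def labI (p : ℕ) [Fact p.Prime] (a b : ℕ) : ZMod p :=
  (a : ZMod p) ^ 2 / (b : ZMod p) ^ 2

theorem labS_sq {a b : ℕ} (hsq : Squarefree n) (h : IsRep n a b) (hpn : p ∣ n) :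
    labS p a b ^ 2 = 2 := by
  obtain ⟨ha, hb⟩ := cast_ne_zero_of_rep hsq h hpn
  have h1 := cast_rep h hpn
  unfold labS
  field_simp
  linear_combination h1

theorem labI_sq {a b : ℕ} (hsq : Squarefree n) (h : IsRep n a b) (hpn : p ∣ n) :
    labI p a b ^ 2 = -1 := by
  obtain ⟨ha, hb⟩ := cast_ne_zero_of_rep hsq h hpn
  have h1 := cast_rep h hpn
  unfold labI
  field_simp
  linear_combination h1

theorem dvd_XS_iff {a b c d : ℕ} (hsq : Squarefree n) (h : IsRep n a b) (h' : IsRep n c d)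
    (hpn : p ∣ n) : (p : ℤ) ∣ XS a b c d ↔ labS p a b = labS p c d := by
  obtain ⟨ha, hb⟩ := cast_ne_zero_of_rep hsq h hpn
  obtain ⟨hc, hd⟩ := cast_ne_zero_of_rep hsq h' hpn
  rw [← ZMod.intCast_zmod_eq_zero_iff_dvd]
  unfold XS labS
  push_cast
  rw [div_eq_div_iff (mul_ne_zero ha hb) (mul_ne_zero hc hd)]
  constructor
  · intro h1
    linear_combination -h1
  · intro h1
    linear_combination -h1

theorem dvd_XI_iff {a b c d : ℕ} (hsq : Squarefree n) (h : IsRep n a b) (h' : IsRep n c d)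
    (hpn : p ∣ n) : (p : ℤ) ∣ XI a b c d ↔ labI p a b = labI p c d := by
  obtain ⟨ha, hb⟩ := cast_ne_zero_of_rep hsq h hpn
  obtain ⟨hc, hd⟩ := cast_ne_zero_of_rep hsq h' hpn
  rw [← ZMod.intCast_zmod_eq_zero_iff_dvd]
  unfold XI labI
  push_cast
  rw [div_eq_div_iff (pow_ne_zero 2 hb) (pow_ne_zero 2 hd)]
  constructor
  · intro h1
    linear_combination h1
  · intro h1
    linear_combination h1

/-- The labels in `ℚ(√2)` take only two values. -/
theorem XS_trans {a₀ b₀ a b c d : ℕ} (hsq : Squarefree n) (hp2 : p ≠ 2) (h₀ : IsRep n a₀ b₀)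
    (h : IsRep n a b) (h' : IsRep n c d) (hpn : p ∣ n) :
    (((p : ℤ) ∣ XS a₀ b₀ a b) ↔ ((p : ℤ) ∣ XS a₀ b₀ c d)) ↔ (p : ℤ) ∣ XS a b c d := by
  rw [dvd_XS_iff hsq h₀ h hpn, dvd_XS_iff hsq h₀ h' hpn, dvd_XS_iff hsq h h' hpn]
  have e0 := labS_sq hsq h₀ hpn
  have e1 := labS_sq hsq h hpn
  have e2 := labS_sq hsq h' hpn
  have h2 := two_ne_zero_zmod (p := p) hp2
  generalize labS p a₀ b₀ = s0 at *
  generalize labS p a b = s1 at *
  generalize labS p c d = s2 at *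
  have k1 : s1 = s0 ∨ s1 = -s0 := sq_eq_sq_iff_eq_or_eq_neg.1 (by rw [e0, e1])
  have k2 : s2 = s0 ∨ s2 = -s0 := sq_eq_sq_iff_eq_or_eq_neg.1 (by rw [e0, e2])
  have k3 : s0 ≠ -s0 := by
    intro h3
    have h4 : 2 * s0 = 0 := by linear_combination h3
    rcases mul_eq_zero.1 h4 with h5 | h5
    · exact h2 h5
    · rw [h5] at e0
      apply h2
      rw [← e0]
      ring
  rcases k1 with k1 | k1 <;> rcases k2 with k2 | k2 <;> subst k1 <;> subst k2 <;>
    simp [k3, k3.symm]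

end labels

end Pool.Agent.QuarticRank
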