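import Mathlib
import Pool.Agent.QuarticRank.Label

/-!
Valuations of the two numbers attached to a pair of representations.
-/

namespace Pool.Agent.QuarticRank

/-- The number whose valuations give the labels in `ℚ(√2)`. -/
def kap (n a b c d : ℤ) : ℤ := (a ^ 2 + b ^ 2) * (c ^ 2 + d ^ 2) - 2 * (a * b) * (c * d) - n

/-- The number whose valuations give the labels in `ℚ(i)`. -/
def rho (n a b c d : ℤ) : ℤ := 2 * (n + a ^ 2 * c ^ 2 + b ^ 2 * d ^ 2)

/-- The complementary number. -/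
def rho' (n a b c d : ℤ) : ℤ := 2 * (n + a ^ 2 * c ^ 2 - b ^ 2 * d ^ 2)

section val

variable {n : ℕ}

theorem kap_mul {a b c d : ℕ} (h : IsRep n a b) (h' : IsRep n c d) :
    kap n a b c d * (kap n a b c d + 2 * n) = 2 * (XS a b c d) ^ 2 := by
  have e1 := h.eqZ
  have e2 := h'.eqZ
  unfold kap XS
  linear_combination ((c : ℤ) ^ 4 + (d : ℤ) ^ 4) * e1 + (n : ℤ) * e2

theorem rho_mul {a b c d : ℕ} (h : IsRep n a b) (h' : IsRep n c d) :
    rho n a b c d * rho' n a b c d = 4 * n * ((a : ℤ) ^ 2 + (c : ℤ) ^ 2) ^ 2 := by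
  have e1 := h.eqZ
  have e2 := h'.eqZ
  unfold rho rho'
  linear_combination (-4 * (d : ℤ) ^ 4) * e1 + (-4 * ((n : ℤ) - (a : ℤ) ^ 4)) * e2

theorem kap_pos {a b c d : ℕ} (hsq : Squarefree n) (hn : 2 < n) (h : IsRep n a b)
    (h' : IsRep n c d) (hne : (a, b) ≠ (c, d)) : 0 < kap n a b c d := by
  have h1 := kap_mul h h'
  have h2 : 0 < (XS a b c d) ^ 2 := by
    have := XS_ne_zero hsq hn h h' hne
    positivity
  have h3 : 0 < kap n a b c d + 2 * n := by
    have h4 : 0 < kap n a b c d + n := by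
      unfold kap
      have ha : (0 : ℤ) < a := by exact_mod_cast h.pos
      have hb : (0 : ℤ) < b := by exact_mod_cast h.pos'
      have hc : (0 : ℤ) < c := by exact_mod_cast h'.pos
      have hd : (0 : ℤ) < d := by exact_mod_cast h'.pos'
      nlinarith [mul_pos (mul_pos ha hb) (mul_pos hc hd),
        mul_nonneg (sq_nonneg ((a : ℤ) - b)) (mul_pos hc hd).le,
        mul_nonneg (sq_nonneg ((c : ℤ) - d)) (by positivity : (0 : ℤ) ≤ (a : ℤ) ^ 2 + (b : ℤ) ^ 2)]
    have h5 : (0 : ℤ) < n := by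
      have : 0 < n := by omega
      exact_mod_cast this
    linarith
  have h4 : 0 < kap n a b c d * (kap n a b c d + 2 * n) := by
    rw [h1]
    linarith
  exact pos_of_mul_pos_left h4 h3.le

variable {p : ℕ} [hp : Fact p.Prime]

omit hp in
theorem val_int_zero {z : ℤ} (h : ¬ (p : ℤ) ∣ z) : padicValRat p (z : ℚ) = 0 := by
  rw [padicValRat.of_int, padicValInt.eq_zero_of_not_dvd h]
  rfl

theorem val_two (hp2 : p ≠ 2) : padicValRat p (2 : ℚ) = 0 := by
  have h1 : ¬ (p : ℤ) ∣ 2 := by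
    intro h
    have h2 : p ∣ 2 := by exact_mod_cast h
    exact hp2 ((Nat.prime_dvd_prime_iff_eq hp.out Nat.prime_two).1 h2)
  have h3 := val_int_zero h1
  rw [← h3]
  norm_num

theorem val_n (hsq : Squarefree n) (hpn : p ∣ n) : padicValRat p (n : ℚ) = 1 := by
  obtain ⟨m, hm⟩ := hpn
  have hpm : ¬ p ∣ m := by
    intro h
    obtain ⟨k, hk⟩ := h
    have h1 : p * p ∣ n := ⟨k, by rw [hm, hk]; ring⟩
    have h2 := hsq p h1
    exact hp.out.one_lt.ne' (Nat.isUnit_iff.1 h2)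
  have hm0 : m ≠ 0 := by
    rintro rfl
    exact hpm (dvd_zero p)
  rw [hm]
  push_cast
  rw [padicValRat.mul (by exact_mod_cast hp.out.ne_zero) (by exact_mod_cast hm0)]
  rw [padicValRat.self hp.out.one_lt]
  have h3 : padicValRat p (m : ℚ) = 0 := by
    have : ¬ (p : ℤ) ∣ (m : ℤ) := by
      intro h
      exact hpm (by exact_mod_cast h)
    have h5 := val_int_zero this
    rw [← h5]
    norm_num
  rw [h3, add_zero]

theorem val_sq_even (q : ℚ) : Even (padicValRat p (q ^ 2)) := by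
  rw [padicValRat.pow]
  exact ⟨padicValRat p q, by push_cast; ring⟩

theorem not_sq_dvd_two_n (hsq : Squarefree n) (hp2 : p ≠ 2) : ¬ (p : ℤ) ^ 2 ∣ 2 * n := by
  intro h
  have h1 : p ^ 2 ∣ 2 * n := by exact_mod_cast h
  have h2 : Nat.Coprime (p ^ 2) 2 :=
    Nat.Coprime.pow_left 2 ((Nat.coprime_primes hp.out Nat.prime_two).2 hp2)
  have h3 : p ^ 2 ∣ n := h2.dvd_of_dvd_mul_left h1
  rw [sq] at h3
  exact hp.out.one_lt.ne' (Nat.isUnit_iff.1 (hsq p h3))

/-- The valuation of `kap` is odd at the primes with equal labels in `ℚ(√2)`. -/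
theorem kap_val_odd {a b c d : ℕ} (hsq : Squarefree n) (hn : 2 < n) (hp2 : p ≠ 2)
    (h : IsRep n a b) (h' : IsRep n c d) (hne : (a, b) ≠ (c, d)) (hpn : p ∣ n)
    (hd : (p : ℤ) ∣ XS a b c d) : Odd (padicValRat p (kap n a b c d : ℚ)) := by
  have h0 := kap_pos hsq hn h h' hne
  have hX := XS_ne_zero hsq hn h h' hne
  have hmul := kap_mul h h'
  set k := kap n a b c d with hk
  have hn0 : (0 : ℤ) < n := by
    have : 0 < n := by omega
    exact_mod_cast this
  have hk' : 0 < k + 2 * n := by linarith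
  have hpn' : (p : ℤ) ∣ 2 * n := Dvd.dvd.mul_left (by exact_mod_cast hpn) _
  have hpp := Nat.prime_iff_prime_int.1 hp.out
  have h1 : (p : ℤ) ∣ k * (k + 2 * n) := by
    rw [hmul]
    exact Dvd.dvd.mul_left (dvd_pow hd two_ne_zero) _
  have h2 : (p : ℤ) ∣ k := by
    rcases hpp.dvd_or_dvd h1 with h3 | h3
    · exact h3
    · exact (dvd_add_left hpn').1 h3
  have h3 : (p : ℤ) ∣ k + 2 * n := dvd_add h2 hpn'
  -- valuations
  have e1 : padicValRat p (k : ℚ) + padicValRat p ((k + 2 * n : ℤ) : ℚ) =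
      2 * padicValRat p (XS a b c d : ℚ) := by
    rw [← padicValRat.mul (by exact_mod_cast h0.ne') (by exact_mod_cast hk'.ne')]
    have h4 : (k : ℚ) * ((k + 2 * n : ℤ) : ℚ) = 2 * (XS a b c d : ℚ) ^ 2 := by
      exact_mod_cast hmul
    rw [h4, padicValRat.mul two_ne_zero (by positivity), val_two hp2,
      padicValRat.pow]
    push_cast
    ring
  rw [padicValRat.of_int, padicValRat.of_int] at e1
  rw [padicValRat.of_int]
  by_cases h5 : padicValInt p k = 1
  · rw [h5]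
    exact ⟨0, by norm_num⟩
  · have h6 : 1 ≤ padicValInt p k := by
      have := (padicValInt_dvd_iff (p := p) 1 k).1 (by simpa using h2)
      exact this.resolve_left h0.ne'
    have h7 : 2 ≤ padicValInt p k := by omega
    have h8 : (p : ℤ) ^ 2 ∣ k := (padicValInt_dvd_iff (p := p) 2 k).2 (Or.inr h7)
    have h9 : ¬ (p : ℤ) ^ 2 ∣ k + 2 * n := by
      intro h10
      exact not_sq_dvd_two_n hsq hp2 ((dvd_add_right h8).1 h10)
    have h10 : padicValInt p (k + 2 * n) < 2 := by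
      by_contra h11
      push Not at h11
      exact h9 ((padicValInt_dvd_iff (p := p) 2 _).2 (Or.inr h11))
    have h11 : 1 ≤ padicValInt p (k + 2 * n) := by
      have := (padicValInt_dvd_iff (p := p) 1 (k + 2 * n)).1 (by simpa using h3)
      exact this.resolve_left hk'.ne'
    have h12 : padicValInt p (k + 2 * n) = 1 := by omega
    rw [h12] at e1
    refine ⟨padicValRat p (XS a b c d : ℚ) - 1, ?_⟩
    push_cast at e1 ⊢
    linarith

/-- `kap` is prime to the primes with different labels in `ℚ(√2)`. -/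
theorem kap_val_zero {a b c d : ℕ} (hp2 : p ≠ 2)
    (h : IsRep n a b) (h' : IsRep n c d) (hd : ¬ (p : ℤ) ∣ XS a b c d) :
    padicValRat p (kap n a b c d : ℚ) = 0 := by
  apply val_int_zero
  intro h1
  have hmul := kap_mul h h'
  have h2 : (p : ℤ) ∣ 2 * (XS a b c d) ^ 2 := by
    rw [← hmul]
    exact Dvd.dvd.mul_right h1 _
  have hpp := Nat.prime_iff_prime_int.1 hp.out
  rcases hpp.dvd_or_dvd h2 with h3 | h3
  · have h4 : p ∣ 2 := by exact_mod_cast h3
    exact hp2 ((Nat.prime_dvd_prime_iff_eq hp.out Nat.prime_two).1 h4)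
  · exact hd (hpp.dvd_of_dvd_pow h3)

/-- The two cases for `rho`, `rho'` modulo `p`. -/
theorem rho_dvd {a b c d : ℕ} (hsq : Squarefree n) (hp2 : p ≠ 2) (h : IsRep n a b)
    (h' : IsRep n c d) (hpn : p ∣ n) :
    ((p : ℤ) ∣ XI a b c d → ¬ (p : ℤ) ∣ rho' n a b c d) ∧
    (¬ (p : ℤ) ∣ XI a b c d → ¬ (p : ℤ) ∣ rho n a b c d) := by
  obtain ⟨ha, hb⟩ := cast_ne_zero_of_rep hsq h hpn
  obtain ⟨hc, hd⟩ := cast_ne_zero_of_rep hsq h' hpn
  have e1 := labI_sq hsq h hpn
  have e2 := labI_sq hsq h' hpn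
  have h2 := two_ne_zero_zmod (p := p) hp2
  have hn0 : (n : ZMod p) = 0 := (ZMod.natCast_eq_zero_iff n p).2 hpn
  have f1 : (a : ZMod p) ^ 2 = labI p a b * (b : ZMod p) ^ 2 := by
    unfold labI
    field_simp
  have f2 : (c : ZMod p) ^ 2 = labI p c d * (d : ZMod p) ^ 2 := by
    unfold labI
    field_simp
  have hbd : (b : ZMod p) ^ 2 * (d : ZMod p) ^ 2 ≠ 0 :=
    mul_ne_zero (pow_ne_zero 2 hb) (pow_ne_zero 2 hd)
  constructor
  · intro hX hr
    rw [dvd_XI_iff hsq h h' hpn] at hX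
    rw [← ZMod.intCast_zmod_eq_zero_iff_dvd] at hr
    unfold rho' at hr
    push_cast at hr
    rw [hn0, f1, f2, ← hX] at hr
    apply mul_ne_zero (mul_ne_zero h2 h2) hbd
    linear_combination -hr + 2 * (b : ZMod p) ^ 2 * (d : ZMod p) ^ 2 * e1
  · intro hX hr
    rw [dvd_XI_iff hsq h h' hpn] at hX
    rw [← ZMod.intCast_zmod_eq_zero_iff_dvd] at hr
    unfold rho at hr
    push_cast at hr
    have hX' : labI p c d = -labI p a b := by
      rcases sq_eq_sq_iff_eq_or_eq_neg.1 (e1.trans e2.symm) with h3 | h3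
      · exact absurd h3 hX
      · rw [h3, neg_neg]
    rw [hn0, f1, f2, hX'] at hr
    apply mul_ne_zero (mul_ne_zero h2 h2) hbd
    linear_combination hr + 2 * (b : ZMod p) ^ 2 * (d : ZMod p) ^ 2 * e1

theorem rho_pos {a b c d : ℕ} (hn : 2 < n) : 0 < rho n a b c d := by
  unfold rho
  have h5 : (0 : ℤ) < n := by
    have : 0 < n := by omega
    exact_mod_cast this
  positivity

theorem rho'_pos {a b c d : ℕ} (h : IsRep n a b) (h' : IsRep n c d) (hn : 2 < n) :
    0 < rho' n a b c d := by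
  have h1 := rho_mul h h'
  have h2 := rho_pos (a := a) (b := b) (c := c) (d := d) hn
  have h5 : (0 : ℤ) < n := by
    have : 0 < n := by omega
    exact_mod_cast this
  have h3 : 0 < rho n a b c d * rho' n a b c d := by
    rw [h1]
    have := h.pos
    positivity
  exact pos_of_mul_pos_right h3 h2.le

theorem rho_val_sum {a b c d : ℕ} (hsq : Squarefree n) (hn : 2 < n) (hp2 : p ≠ 2)
    (h : IsRep n a b) (h' : IsRep n c d) (hpn : p ∣ n) :
    padicValRat p (rho n a b c d : ℚ) + padicValRat p (rho' n a b c d : ℚ) =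
      1 + 2 * padicValRat p ((a : ℚ) ^ 2 + (c : ℚ) ^ 2) := by
  have h1 := rho_mul h h'
  have hr := rho_pos (a := a) (b := b) (c := c) (d := d) hn
  have hr' := rho'_pos h h' hn
  have hac : ((a : ℚ) ^ 2 + (c : ℚ) ^ 2) ≠ 0 := by
    have := h.pos
    positivity
  have hn0 : (n : ℚ) ≠ 0 := by
    have : n ≠ 0 := by omega
    exact_mod_cast this
  rw [← padicValRat.mul (by exact_mod_cast hr.ne') (by exact_mod_cast hr'.ne')]
  have h2 : (rho n a b c d : ℚ) * (rho' n a b c d : ℚ) =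
      2 * (2 * (n * ((a : ℚ) ^ 2 + (c : ℚ) ^ 2) ^ 2)) := by
    have h3 : ((rho n a b c d * rho' n a b c d : ℤ) : ℚ) =
      ((4 * n * ((a : ℤ) ^ 2 + (c : ℤ) ^ 2) ^ 2 : ℤ) : ℚ) := by rw [h1]
    push_cast at h3
    linear_combination h3
  rw [h2, padicValRat.mul two_ne_zero (by positivity), padicValRat.mul two_ne_zero (by positivity),
    padicValRat.mul hn0 (by positivity), val_two hp2, val_n hsq hpn, padicValRat.pow]
  push_cast
  ring

theorem rho_val_odd {a b c d : ℕ} (hsq : Squarefree n) (hn : 2 < n) (hp2 : p ≠ 2)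
    (h : IsRep n a b) (h' : IsRep n c d) (hpn : p ∣ n) (hd : (p : ℤ) ∣ XI a b c d) :
    Odd (padicValRat p (rho n a b c d : ℚ)) ∧ padicValRat p (rho' n a b c d : ℚ) = 0 := by
  have h1 := rho_val_sum hsq hn hp2 h h' hpn
  have h2 := val_int_zero ((rho_dvd hsq hp2 h h' hpn).1 hd)
  refine ⟨⟨padicValRat p ((a : ℚ) ^ 2 + (c : ℚ) ^ 2), ?_⟩, h2⟩
  rw [h2] at h1
  linarith

theorem rho_val_zero {a b c d : ℕ} (hsq : Squarefree n) (hn : 2 < n) (hp2 : p ≠ 2)
    (h : IsRep n a b) (h' : IsRep n c d) (hpn : p ∣ n) (hd : ¬ (p : ℤ) ∣ XI a b c d) :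
    padicValRat p (rho n a b c d : ℚ) = 0 ∧ Odd (padicValRat p (rho' n a b c d : ℚ)) := by
  have h1 := rho_val_sum hsq hn hp2 h h' hpn
  have h2 := val_int_zero ((rho_dvd hsq hp2 h h' hpn).2 hd)
  refine ⟨h2, ⟨padicValRat p ((a : ℚ) ^ 2 + (c : ℚ) ^ 2), ?_⟩⟩
  rw [h2] at h1
  linarith

end val

end Pool.Agent.QuarticRank
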