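import Mathlib
import Pool.Agent.QuarticRank.Descent2
import Pool.Agent.QuarticRank.Val

/-!
Algebra in the quadratic field and rational squares.
-/

namespace Pool.Agent.QuarticRank

theorem norm_mk {c x : ℚ} : QuadraticAlgebra.norm (⟨x, -1⟩ : QK c) = x ^ 2 + c := by
  rw [QuadraticAlgebra.norm_def]
  ring

theorem norm_isSquare {c : ℚ} {z : QK c} (h : IsSquare z) : IsSquare (QuadraticAlgebra.norm z) := by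
  obtain ⟨w, hw⟩ := h
  exact ⟨QuadraticAlgebra.norm w, by rw [hw, map_mul]⟩

/-- A rational number which is a square in `ℚ[θ]`, `θ² = -c`. -/
theorem rat_square {c q : ℚ} (h : IsSquare (⟨q, 0⟩ : QK c)) :
    ∃ u : ℚ, q = u ^ 2 ∨ q = -c * u ^ 2 := by
  obtain ⟨⟨u, v⟩, hw⟩ := h
  have h1 := congrArg QuadraticAlgebra.re hw
  have h2 := congrArg QuadraticAlgebra.im hw
  simp only [QuadraticAlgebra.re_mul, QuadraticAlgebra.im_mul] at h1 h2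
  have h3 : u * v = 0 := by linear_combination -h2 / 2
  rcases mul_eq_zero.1 h3 with h4 | h4
  · refine ⟨v, Or.inr ?_⟩
    rw [h4] at h1
    linear_combination h1
  · refine ⟨u, Or.inl ?_⟩
    rw [h4] at h1
    linear_combination h1

/-- If `-θ q` is a square in `ℚ[θ]`, `θ² = -c`. -/
theorem theta_square {c q : ℚ} (h : IsSquare (⟨0, -q⟩ : QK c)) :
    ∃ u v : ℚ, u ^ 2 = c * v ^ 2 ∧ q = -(2 * u * v) := by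
  obtain ⟨⟨u, v⟩, hw⟩ := h
  have h1 := congrArg QuadraticAlgebra.re hw
  have h2 := congrArg QuadraticAlgebra.im hw
  simp only [QuadraticAlgebra.re_mul, QuadraticAlgebra.im_mul] at h1 h2
  exact ⟨u, v, by linear_combination -h1, by linear_combination -h2⟩

/-- The class of the product of the descent values of two representations. -/
theorem mul_rho_isSquare {n a b c d : ℚ} (h : a ^ 4 + b ^ 4 = n) (h' : c ^ 4 + d ^ 4 = n) :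
    IsSquare ((⟨-a ^ 2, -1⟩ * ⟨-c ^ 2, -1⟩ : QK (-n)) *
      ⟨2 * (n + a ^ 2 * c ^ 2 + b ^ 2 * d ^ 2), 0⟩) := by
  refine ⟨⟨a ^ 2 * c ^ 2 + n + b ^ 2 * d ^ 2, a ^ 2 + c ^ 2⟩, ?_⟩
  ext
  · simp only [QuadraticAlgebra.re_mul, QuadraticAlgebra.im_mul]
    linear_combination -(d ^ 4) * h - (n - a ^ 4) * h'
  · simp only [QuadraticAlgebra.re_mul, QuadraticAlgebra.im_mul]
    ring

/-- The equation of the curve at the new point. -/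
theorem newpoint_eq {n a b c d : ℚ} (h : a ^ 4 + b ^ 4 = n) (h' : c ^ 4 + d ^ 4 = n) :
    (((a ^ 2 + b ^ 2) * (c ^ 2 + d ^ 2) - 2 * (a * b) * (c * d) - n) *
        (a ^ 2 + b ^ 2 + a * b - c ^ 2 - d ^ 2 - c * d) -
      (a * b * (c ^ 2 + d ^ 2) - c * d * (a ^ 2 + b ^ 2)) * (a + b + c + d) ^ 2) ^ 2 =
    ((a ^ 2 + b ^ 2) * (c ^ 2 + d ^ 2) - 2 * (a * b) * (c * d) - n) *
      (n * (a + b + c + d) ^ 4 -
        ((a ^ 2 + b ^ 2) * (c ^ 2 + d ^ 2) - 2 * (a * b) * (c * d) - n) ^ 2) := by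
  subst h
  linear_combination (-(1*a^8 +6*a^7*b +4*a^7*c +4*a^7*d +9*a^6*b^2 +12*a^6*b*c +12*a^6*b*d
    +4*a^6*c^2 +8*a^6*c*d +4*a^6*d^2 +6*a^5*b^3 +12*a^5*b^2*c +12*a^5*b^2*d +4*a^5*b*c^2
    +16*a^5*b*c*d +4*a^5*b*d^2 +4*a^5*c^2*d +4*a^5*c*d^2 +2*a^4*b^4 +4*a^4*b^3*c +4*a^4*b^3*d
    -2*a^4*b^2*c^2 +16*a^4*b^2*c*d -2*a^4*b^2*d^2 -4*a^4*b*c^3 +4*a^4*b*c^2*d +4*a^4*b*c*d^2
    -4*a^4*b*d^3 -1*a^4*c^4 -1*a^4*d^4 +6*a^3*b^5 +4*a^3*b^4*c +4*a^3*b^4*d -8*a^3*b^3*c^2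
    +12*a^3*b^3*c*d -8*a^3*b^3*d^2 -8*a^3*b^2*c^3 +4*a^3*b^2*c^2*d +4*a^3*b^2*c*d^2
    -8*a^3*b^2*d^3 -2*a^3*b*c^4 -2*a^3*b*d^4 +9*a^2*b^6 +12*a^2*b^5*c +12*a^2*b^5*d
    -2*a^2*b^4*c^2 +16*a^2*b^4*c*d -2*a^2*b^4*d^2 -8*a^2*b^3*c^3 +4*a^2*b^3*c^2*d
    +4*a^2*b^3*c*d^2 -8*a^2*b^3*d^3 -3*a^2*b^2*c^4 -3*a^2*b^2*d^4 +6*a*b^7 +12*a*b^6*c
    +12*a*b^6*d +4*a*b^5*c^2 +16*a*b^5*c*d +4*a*b^5*d^2 -4*a*b^4*c^3 +4*a*b^4*c^2*d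
    +4*a*b^4*c*d^2 -4*a*b^4*d^3 -2*a*b^3*c^4 -2*a*b^3*d^4 +1*b^8 +4*b^7*c +4*b^7*d +4*b^6*c^2
    +8*b^6*c*d +4*b^6*d^2 +4*b^5*c^2*d +4*b^5*c*d^2 -1*b^4*c^4 -1*b^4*d^4)) * h'

end Pool.Agent.QuarticRank
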