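import Mathlib
import Pool.Agent.QuarticRank.Alg

/-!
The bound `4 r² ≤ 2 ^ rank` for the curve `y² = x³ - n x`.
-/

namespace Pool.Agent.QuarticRank

open WeierstrassCurve WeierstrassCurve.Affine

section A

/-- The point `(-a², a b²)` on `y² = x³ - n x`. -/
def ptR {n a b : ℚ} (hc : -n ≠ 0) (h : a ^ 4 + b ^ 4 = n) : (curve (-n)).Point :=
  pt (x := -a ^ 2) (y := a * b ^ 2) hc (by rw [← h]; ring)

theorem mval_ptR {n a b : ℚ} (hc : -n ≠ 0) (h : a ^ 4 + b ^ 4 = n) :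
    mval (-n) (ptR hc h) = ⟨-a ^ 2, -1⟩ := rfl

/-- The integer `kap`, for rational arguments. -/
def kapQ (n a b c d : ℚ) : ℚ := (a ^ 2 + b ^ 2) * (c ^ 2 + d ^ 2) - 2 * (a * b) * (c * d) - n

/-- The numerator of the ordinate of the new point. -/
def tQ (n a b c d : ℚ) : ℚ := kapQ n a b c d * (a ^ 2 + b ^ 2 + a * b - c ^ 2 - d ^ 2 - c * d) -
      (a * b * (c ^ 2 + d ^ 2) - c * d * (a ^ 2 + b ^ 2)) * (a + b + c + d) ^ 2

theorem tQ_sq {n a b c d : ℚ} (h : a ^ 4 + b ^ 4 = n) (h' : c ^ 4 + d ^ 4 = n) :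
    tQ n a b c d ^ 2 = kapQ n a b c d * (n * (a + b + c + d) ^ 4 - kapQ n a b c d ^ 2) :=
  newpoint_eq h h'

/-- The new point attached to two representations. -/
def ptZ {n a b c d : ℚ} (hc : -n ≠ 0) (h : a ^ 4 + b ^ 4 = n) (h' : c ^ 4 + d ^ 4 = n)
    (hS : a + b + c + d ≠ 0) : (curve (-n)).Point :=
  pt (x := -kapQ n a b c d / (a + b + c + d) ^ 2) (y := tQ n a b c d / (a + b + c + d) ^ 3) hc
    (by
      have h1 := tQ_sq h h'
      field_simp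
      linear_combination h1)

theorem mval_ptZ {n a b c d : ℚ} (hc : -n ≠ 0) (h : a ^ 4 + b ^ 4 = n) (h' : c ^ 4 + d ^ 4 = n)
    (hS : a + b + c + d ≠ 0) :
    mval (-n) (ptZ hc h h' hS) = ⟨-kapQ n a b c d / (a + b + c + d) ^ 2, -1⟩ := rfl

theorem norm_ptR {n a b : ℚ} (hc : -n ≠ 0) (h : a ^ 4 + b ^ 4 = n) :
    QuadraticAlgebra.norm (mval (-n) (ptR hc h)) = -(b ^ 2) ^ 2 := by
  rw [mval_ptR, norm_mk]
  linear_combination h

theorem norm_ptZ {n a b c d : ℚ} (hc : -n ≠ 0) (h : a ^ 4 + b ^ 4 = n) (h' : c ^ 4 + d ^ 4 = n)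
    (hS : a + b + c + d ≠ 0) (hk : kapQ n a b c d ≠ 0) :
    QuadraticAlgebra.norm (mval (-n) (ptZ hc h h' hS)) =
      -kapQ n a b c d * (tQ n a b c d / (kapQ n a b c d * (a + b + c + d) ^ 2)) ^ 2 := by
  rw [mval_ptZ, norm_mk]
  have h1 := tQ_sq h h'
  field_simp
  linear_combination h1

end A

end Pool.Agent.QuarticRank
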