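import Mathlib
import Pool.Agent.QuarticRank.MainA

/-!
The bound `4 r² ≤ 2 ^ rank` for the curve `y² = x³ - n x`: assembly.
-/

namespace Pool.Agent.QuarticRank

open WeierstrassCurve WeierstrassCurve.Affine

section A

variable {n : ℕ}

theorem exists_odd_prime {a b : ℕ} (hsq : Squarefree n) (hn : 2 < n) (h : IsRep n a b) :
    ∃ p : ℕ, p.Prime ∧ p ≠ 2 ∧ p ∣ n := by
  obtain ⟨p, h1, h2, h3, -⟩ := exists_dvd_XI hsq hn h h
  exact ⟨p, h1, h2, h3⟩

theorem odd_ne_even {x : ℤ} (h1 : Odd x) (h2 : Even x) : False :=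
  (Int.not_even_iff_odd.2 h1) h2

theorem n_not_sq {a b : ℕ} (hsq : Squarefree n) (hn : 2 < n) (h : IsRep n a b) (r : ℚ) :
    r ^ 2 ≠ (n : ℚ) := by
  intro hr
  obtain ⟨p, h1, h2, h3⟩ := exists_odd_prime hsq hn h
  haveI : Fact p.Prime := ⟨h1⟩
  have h4 := val_sq_even (p := p) r
  rw [hr, val_n hsq h3] at h4
  exact odd_ne_even ⟨0, by norm_num⟩ h4

theorem repQ {a b : ℕ} (h : IsRep n a b) : (a : ℚ) ^ 4 + (b : ℚ) ^ 4 = (n : ℚ) := by
  rw [← h.eq]
  push_cast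
  ring

theorem repQ' {a b : ℕ} (h : IsRep n a b) : (b : ℚ) ^ 4 + (a : ℚ) ^ 4 = (n : ℚ) := by
  rw [← h.eq]
  push_cast
  ring

theorem sum_ne {a b c d : ℕ} (h : IsRep n a b) : (a : ℚ) + b + c + d ≠ 0 := by
  have := h.pos
  positivity

theorem kapQ_cast (a b c d : ℕ) : kapQ n a b c d = (kap n a b c d : ℚ) := by
  unfold kapQ kap
  push_cast
  ring

/-- The rational number attached to a representation `q`, relative to the base one `r`. -/
def kk (n : ℕ) (r q : ℕ × ℕ) : ℚ := if q = r then (n : ℚ) else (kap n r.1 r.2 q.1 q.2 : ℚ)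

theorem kk_pos {r q : ℕ × ℕ} (hsq : Squarefree n) (hn : 2 < n) (hr : IsRep n r.1 r.2)
    (hq : IsRep n q.1 q.2) : 0 < kk n r q := by
  unfold kk
  split_ifs with h
  · have : 0 < n := by omega
    exact_mod_cast this
  · have := kap_pos hsq hn hr hq (fun h' => h h'.symm)
    exact_mod_cast this

theorem kk_val {p : ℕ} [Fact p.Prime] {r q : ℕ × ℕ} (hsq : Squarefree n) (hn : 2 < n)
    (hp2 : p ≠ 2) (hpn : p ∣ n) (hr : IsRep n r.1 r.2) (hq : IsRep n q.1 q.2) :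
    ((p : ℤ) ∣ XS r.1 r.2 q.1 q.2 ↔ Odd (padicValRat p (kk n r q))) := by
  unfold kk
  split_ifs with h
  · subst h
    rw [val_n hsq hpn]
    have h1 : XS (q.1 : ℤ) q.2 q.1 q.2 = 0 := by unfold XS; ring
    rw [h1]
    exact ⟨fun _ => ⟨0, by norm_num⟩, fun _ => dvd_zero _⟩
  · constructor
    · intro h1
      exact kap_val_odd hsq hn hp2 hr hq (fun h' => h h'.symm) hpn h1
    · intro h1
      by_contra h2
      rw [kap_val_zero hp2 hr hq h2] at h1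
      exact odd_ne_even h1 ⟨0, by norm_num⟩

variable [hF : Fact (∀ r : ℚ, r ^ 2 ≠ -(-(n : ℚ)) + 0 * r)]

/-- The point attached to a pair of representations (the point `(0, 0)` on the diagonal). -/
def Zp (hc : -(n : ℚ) ≠ 0) (r q : ℕ × ℕ) (hr : IsRep n r.1 r.2) (hq : IsRep n q.1 q.2) :
    (curve (-(n : ℚ))).Point :=
  if q = r then T0 (-(n : ℚ)) else ptZ hc (repQ hr) (repQ hq) (sum_ne hr)

theorem norm_Zp (hsq : Squarefree n) (hn : 2 < n) (hc : -(n : ℚ) ≠ 0) (r q : ℕ × ℕ)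
    (hr : IsRep n r.1 r.2) (hq : IsRep n q.1 q.2) :
    ∃ s : ℚ, s ≠ 0 ∧
      QuadraticAlgebra.norm (mval (-(n : ℚ)) (Zp hc r q hr hq)) = -kk n r q * s ^ 2 := by
  unfold Zp kk
  split_ifs with h
  · refine ⟨1, one_ne_zero, ?_⟩
    rw [mval_T0, mth, norm_mk]
    ring
  · have hk : kapQ (n : ℚ) r.1 r.2 q.1 q.2 ≠ 0 := by
      rw [kapQ_cast]
      have := kap_pos hsq hn hr hq (fun h' => h h'.symm)
      exact_mod_cast this.ne'
    have h1 := norm_ptZ hc (repQ hr) (repQ hq) (sum_ne hr) hk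
    rw [← kapQ_cast]
    refine ⟨_, ?_, h1⟩
    intro h0
    rw [h0] at h1
    have h2 : QuadraticAlgebra.norm (mval (-(n : ℚ)) (ptZ hc (repQ hr) (repQ hq) (sum_ne hr))) = 0 := by
      rw [h1]
      ring
    rw [QuadraticAlgebra.norm_eq_zero_iff_eq_zero] at h2
    exact mval_ne_zero _ h2

/-- The representative of the descent class of the point with index `(e, f, i, j)`. -/
def FA (hc : -(n : ℚ) ≠ 0) (r : ℕ × ℕ) (hr : IsRep n r.1 r.2) (e f : Bool) (i j : ℕ × ℕ)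
    (hi : IsRep n i.1 i.2) (hj : IsRep n j.1 j.2) : QK (-(n : ℚ)) :=
  (if e then mval _ (ptR hc (repQ hr)) else 1) *
  (if f then mval _ (ptR hc (repQ hr)) * mval _ (ptR hc (repQ' hr)) else 1) *
  mval _ (Zp hc r i hr hi) * mval _ (ptR hc (repQ hj))

/-- The point with index `(e, f, i, j)`. -/
def gA (hc : -(n : ℚ) ≠ 0) (r : ℕ × ℕ) (hr : IsRep n r.1 r.2) (e f : Bool) (i j : ℕ × ℕ)
    (hi : IsRep n i.1 i.2) (hj : IsRep n j.1 j.2) : (curve (-(n : ℚ))).Point :=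
  (if e then ptR hc (repQ hr) else 0) +
  (if f then ptR hc (repQ hr) + ptR hc (repQ' hr) else 0) +
  Zp hc r i hr hi + ptR hc (repQ hj)

theorem rel_gA (hc : -(n : ℚ) ≠ 0) (r : ℕ × ℕ) (hr : IsRep n r.1 r.2) (e f : Bool) (i j : ℕ × ℕ)
    (hi : IsRep n i.1 i.2) (hj : IsRep n j.1 j.2) :
    Rel (gA hc r hr e f i j hi hj) (FA hc r hr e f i j hi hj) := by
  unfold gA FA
  refine rel_add (rel_add (rel_add ?_ ?_) (rel_self _)) (rel_self _)
  · cases e
    · exact rel_zero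
    · exact rel_self _
  · cases f
    · exact rel_zero
    · exact rel_add (rel_self _) (rel_self _)

theorem norm_FA (hsq : Squarefree n) (hn : 2 < n) (hc : -(n : ℚ) ≠ 0) (r : ℕ × ℕ)
    (hr : IsRep n r.1 r.2) (e f : Bool) (i j : ℕ × ℕ)
    (hi : IsRep n i.1 i.2) (hj : IsRep n j.1 j.2) :
    ∃ s : ℚ, s ≠ 0 ∧ QuadraticAlgebra.norm (FA hc r hr e f i j hi hj) =
      (if e then -1 else 1) * kk n r i * s ^ 2 := by
  obtain ⟨s, hs, h1⟩ := norm_Zp hsq hn hc r i hr hi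
  have ha : (r.1 : ℚ) ≠ 0 := by exact_mod_cast hr.pos.ne'
  have hb : (r.2 : ℚ) ≠ 0 := by exact_mod_cast hr.pos'.ne'
  have hd : (j.2 : ℚ) ≠ 0 := by exact_mod_cast hj.pos'.ne'
  refine ⟨(if e then (r.2 : ℚ) ^ 2 else 1) * (if f then (r.1 : ℚ) ^ 2 * (r.2 : ℚ) ^ 2 else 1) *
    s * (j.2 : ℚ) ^ 2, ?_, ?_⟩
  · cases e <;> cases f <;> simp [ha, hb, hd, hs]
  · unfold FA
    rw [map_mul, map_mul, map_mul, h1, norm_ptR]
    cases e <;> cases f <;>
      simp only [if_true, if_false, Bool.false_eq_true, map_one, map_mul, norm_ptR] <;> ring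

end A

end Pool.Agent.QuarticRank
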