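import Mathlib
import Pool.Agent.QuarticRank.MainA2

/-!
The bound `4 r² ≤ 2 ^ rank` for the curve `y² = x³ - n x`: inequivalence of the points.
-/

namespace Pool.Agent.QuarticRank

open WeierstrassCurve WeierstrassCurve.Affine

section A

variable {n : ℕ} [hF : Fact (∀ r : ℚ, r ^ 2 ≠ -(-(n : ℚ)) + 0 * r)]

/-- Parity of a valuation of a rational square. -/
theorem isSquare_val {p : ℕ} [Fact p.Prime] {q : ℚ} (h : IsSquare q) :
    Even (padicValRat p q) := by
  obtain ⟨r, hr⟩ := h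
  rw [hr, ← sq]
  exact val_sq_even r

omit hF in
theorem val_mul3 {p : ℕ} [Fact p.Prime] {x y s : ℚ} (hx : x ≠ 0) (hy : y ≠ 0) (hs : s ≠ 0)
    (h : Even (padicValRat p (x * y * s ^ 2))) :
    (Odd (padicValRat p x) ↔ Odd (padicValRat p y)) := by
  rw [padicValRat.mul (mul_ne_zero hx hy) (pow_ne_zero 2 hs), padicValRat.mul hx hy] at h
  have h1 := val_sq_even (p := p) s
  have h2 : Even (padicValRat p x + padicValRat p y) := (Int.even_add.1 h).2 h1
  rw [Int.even_add] at h2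
  rw [← Int.not_even_iff_odd, ← Int.not_even_iff_odd, h2]

theorem sgn_val {p : ℕ} [Fact p.Prime] (e : Bool) (x : ℚ) :
    padicValRat p ((if e then -1 else 1) * x) = padicValRat p x := by
  cases e
  · simp
  · simp

/-- First step: a square relation forces equal first and third indices, and the trivial class. -/
theorem step_one (hsq : Squarefree n) (hn : 2 < n) (hc : -(n : ℚ) ≠ 0) (r : ℕ × ℕ)
    (hr : IsRep n r.1 r.2) (e f e' f' : Bool) (i j i' j' : ℕ × ℕ)
    (hi : IsRep n i.1 i.2) (hj : IsRep n j.1 j.2) (hi' : IsRep n i'.1 i'.2)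
    (hj' : IsRep n j'.1 j'.2) :
    ¬ IsSquare (FA hc r hr e f i j hi hj * FA hc r hr e' f' i' j' hi' hj' * mth (-(n : ℚ))) ∧
    (IsSquare (FA hc r hr e f i j hi hj * FA hc r hr e' f' i' j' hi' hj') → i = i' ∧ e = e') := by
  obtain ⟨s, hs, h1⟩ := norm_FA hsq hn hc r hr e f i j hi hj
  obtain ⟨s', hs', h1'⟩ := norm_FA hsq hn hc r hr e' f' i' j' hi' hj'
  have hk := kk_pos hsq hn hr hi
  have hk' := kk_pos hsq hn hr hi'
  have hss : s * s' ≠ 0 := mul_ne_zero hs hs'
  have hn0 : (n : ℚ) ≠ 0 := by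
    intro h0
    apply hc
    rw [h0, neg_zero]
  constructor
  · intro hsqr
    have h2 := norm_isSquare hsqr
    rw [map_mul, map_mul, h1, h1'] at h2
    have h3 : QuadraticAlgebra.norm (mth (-(n : ℚ))) = -(n : ℚ) := by
      rw [mth, norm_mk]
      ring
    rw [h3] at h2
    obtain ⟨p, hp1, hp2, hp3, hp4⟩ := exists_dvd_XS hsq hn hi hi'
    have : Fact p.Prime := ⟨hp1⟩
    have h4 := isSquare_val (p := p) h2
    have h5 : (if e = true then (-1 : ℚ) else 1) * kk n r i * s ^ 2 *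
        ((if e' = true then -1 else 1) * kk n r i' * s' ^ 2) * -(n : ℚ) =
        -((if e = true then (-1 : ℚ) else 1) * ((if e' = true then -1 else 1) *
        (kk n r i * (kk n r i' * n) * (s * s') ^ 2))) := by ring
    rw [h5, padicValRat.neg, sgn_val, sgn_val] at h4
    have h6 := val_mul3 hk.ne' (mul_ne_zero hk'.ne' hn0) hss h4
    rw [padicValRat.mul hk'.ne' hn0, val_n hsq hp3] at h6
    have h7 := (XS_trans hsq hp2 hr hi hi' hp3).2 hp4
    rw [kk_val hsq hn hp2 hp3 hr hi, kk_val hsq hn hp2 hp3 hr hi', h6] at h7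
    by_cases h8 : Odd (padicValRat p (kk n r i'))
    · have h9 := h7.2 h8
      exact odd_ne_even h9 (h8.add_odd ⟨0, by norm_num⟩)
    · have h9 : Even (padicValRat p (kk n r i')) := Int.not_odd_iff_even.1 h8
      have h10 : Odd (padicValRat p (kk n r i') + 1) := h9.add_odd ⟨0, by norm_num⟩
      exact h8 (h7.1 h10)
  · intro hsqr
    have h2 := norm_isSquare hsqr
    rw [map_mul, h1, h1'] at h2
    have hii : i = i' := by
      by_contra hne
      obtain ⟨p, hp1, hp2, hp3, hp4⟩ := exists_not_dvd_XS hsq hn hi hi' hne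
      have : Fact p.Prime := ⟨hp1⟩
      have h4 := isSquare_val (p := p) h2
      have h5 : (if e = true then (-1 : ℚ) else 1) * kk n r i * s ^ 2 *
          ((if e' = true then -1 else 1) * kk n r i' * s' ^ 2) =
          ((if e = true then (-1 : ℚ) else 1) * ((if e' = true then -1 else 1) *
          (kk n r i * kk n r i' * (s * s') ^ 2))) := by ring
      rw [h5, sgn_val, sgn_val] at h4
      have h6 := val_mul3 hk.ne' hk'.ne' hss h4
      rw [← kk_val hsq hn hp2 hp3 hr hi, ← kk_val hsq hn hp2 hp3 hr hi'] at h6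
      exact hp4 ((XS_trans hsq hp2 hr hi hi' hp3).1 h6)
    refine ⟨hii, ?_⟩
    subst hii
    obtain ⟨w, hw⟩ := h2
    have hpos : 0 < kk n r i * s ^ 2 * (kk n r i * s' ^ 2) := by positivity
    cases e <;> cases e' <;> simp only [if_true, if_false, Bool.false_eq_true] at hw ⊢
    · exfalso
      nlinarith [mul_self_nonneg w]
    · exfalso
      nlinarith [mul_self_nonneg w]

omit hF in
/-- Two representations: the product of the descent values times `rho` is a square. -/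
theorem pair_isSquare (hc : -(n : ℚ) ≠ 0) {a b c d : ℕ} (h : IsRep n a b) (h' : IsRep n c d) :
    IsSquare (mval (-(n : ℚ)) (ptR hc (repQ h)) * mval (-(n : ℚ)) (ptR hc (repQ h')) *
      (⟨(rho n a b c d : ℚ), 0⟩ : QK (-(n : ℚ)))) := by
  have h1 := mul_rho_isSquare (repQ h) (repQ h')
  rw [mval_ptR, mval_ptR]
  have h2 : (rho n a b c d : ℚ) = 2 * ((n : ℚ) + (a : ℚ) ^ 2 * c ^ 2 + (b : ℚ) ^ 2 * d ^ 2) := by
    unfold rho
    push_cast
    ring
  rw [h2]
  exact h1

omit hF in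
theorem self_isSquare (hc : -(n : ℚ) ≠ 0) {a b : ℕ} (h : IsRep n a b) :
    IsSquare (mval (-(n : ℚ)) (ptR hc (repQ h)) * mval (-(n : ℚ)) (ptR hc (repQ' h)) *
      (⟨2 * ((a : ℚ) ^ 2 + (b : ℚ) ^ 2) ^ 2, 0⟩ : QK (-(n : ℚ)))) := by
  have h1 := mul_rho_isSquare (repQ h) (repQ' h)
  rw [mval_ptR, mval_ptR]
  have h2 : 2 * ((a : ℚ) ^ 2 + (b : ℚ) ^ 2) ^ 2 =
      2 * ((n : ℚ) + (a : ℚ) ^ 2 * b ^ 2 + (b : ℚ) ^ 2 * a ^ 2) := by
    rw [← repQ h]
    ring
  rw [h2]
  exact h1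

omit hF in
theorem mk_mul (x y : ℚ) : (⟨x, 0⟩ : QK (-(n : ℚ))) * ⟨y, 0⟩ = ⟨x * y, 0⟩ := by
  ext <;> simp

omit hF in
/-- `rho` times a rational square times `1` or `2` is not a square in the field. -/
theorem rho_not_square (hsq : Squarefree n) (hn : 2 < n) {a b c d : ℕ}
    (h : IsRep n a b) (h' : IsRep n c d) (hne : (a, b) ≠ (c, d)) {q : ℚ} (hq : q ≠ 0)
    (hv : ∀ p : ℕ, p.Prime → p ≠ 2 → Even (padicValRat p q))
    (hs : IsSquare (⟨rho n a b c d * q, 0⟩ : QK (-(n : ℚ)))) : False := by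
  obtain ⟨u, hu⟩ := rat_square hs
  have hr : (rho n a b c d : ℚ) ≠ 0 := by
    have := rho_pos (a := a) (b := b) (c := c) (d := d) hn
    exact_mod_cast this.ne'
  have hu0 : u ≠ 0 := by
    rintro rfl
    have : (rho n a b c d : ℚ) * q = 0 := by
      rcases hu with hu | hu <;> rw [hu] <;> ring
    exact mul_ne_zero hr hq this
  have hn0 : (n : ℚ) ≠ 0 := by
    have : n ≠ 0 := by omega
    exact_mod_cast this
  rcases hu with hu | hu
  · obtain ⟨p, hp1, hp2, hp3, hp4⟩ := exists_dvd_XI hsq hn h h'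
    have : Fact p.Prime := ⟨hp1⟩
    have h1 := (rho_val_odd hsq hn hp2 h h' hp3 hp4).1
    have h2 := hv p hp1 hp2
    have h3 := val_sq_even (p := p) u
    rw [← hu, padicValRat.mul hr hq] at h3
    exact odd_ne_even (h1.add_even h2) h3
  · obtain ⟨p, hp1, hp2, hp3, hp4⟩ := exists_not_dvd_XI hsq h h' hne
    have : Fact p.Prime := ⟨hp1⟩
    have h1 := (rho_val_zero hsq hn hp2 h h' hp3 hp4).1
    have h2 := hv p hp1 hp2
    have h3 := val_sq_even (p := p) u
    have h4 := congrArg (padicValRat p) hu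
    rw [neg_neg, padicValRat.mul hr hq, padicValRat.mul hn0 (pow_ne_zero 2 hu0), h1,
      val_n hsq hp3, zero_add] at h4
    rw [h4] at h2
    exact odd_ne_even (Odd.add_even ⟨0, by norm_num⟩ h3) h2

omit hF in
theorem two_sq_not_square (hsq : Squarefree n) (hn : 2 < n) {a b : ℕ} (h : IsRep n a b)
    (hs : IsSquare (⟨2 * ((a : ℚ) ^ 2 + (b : ℚ) ^ 2) ^ 2, 0⟩ : QK (-(n : ℚ)))) : False := by
  obtain ⟨u, hu⟩ := rat_square hs
  have hS : ((a : ℚ) ^ 2 + (b : ℚ) ^ 2) ≠ 0 := by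
    have := h.pos
    positivity
  have hu0 : u ≠ 0 := by
    rintro rfl
    have : 2 * ((a : ℚ) ^ 2 + (b : ℚ) ^ 2) ^ 2 = 0 := by
      rcases hu with hu | hu <;> rw [hu] <;> ring
    exact mul_ne_zero two_ne_zero (pow_ne_zero 2 hS) this
  have hn0 : (n : ℚ) ≠ 0 := by
    have : n ≠ 0 := by omega
    exact_mod_cast this
  rcases hu with hu | hu
  · have h1 : IsSquare (2 : ℚ) := by
      refine ⟨u / ((a : ℚ) ^ 2 + (b : ℚ) ^ 2), ?_⟩
      field_simp
      linear_combination hu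
    have h2 : ¬ IsSquare (2 : ℚ) := by norm_num
    exact h2 h1
  · obtain ⟨p, hp1, hp2, hp3⟩ := exists_odd_prime hsq hn h
    have : Fact p.Prime := ⟨hp1⟩
    have h4 := congrArg (padicValRat p) hu
    have h3 := val_sq_even (p := p) u
    have h5 := val_sq_even (p := p) ((a : ℚ) ^ 2 + (b : ℚ) ^ 2)
    rw [neg_neg, padicValRat.mul two_ne_zero (pow_ne_zero 2 hS), val_two hp2,
      padicValRat.mul hn0 (pow_ne_zero 2 hu0), val_n hsq hp3, zero_add] at h4
    rw [h4] at h5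
    exact odd_ne_even (Odd.add_even ⟨0, by norm_num⟩ h3) h5

omit hF in
theorem even_val_two_sq {a b : ℕ} (h : IsRep n a b) (p : ℕ) (hp : p.Prime) (hp2 : p ≠ 2) :
    Even (padicValRat p (2 * ((a : ℚ) ^ 2 + (b : ℚ) ^ 2) ^ 2)) := by
  have : Fact p.Prime := ⟨hp⟩
  have hS : ((a : ℚ) ^ 2 + (b : ℚ) ^ 2) ≠ 0 := by
    have := h.pos
    positivity
  rw [padicValRat.mul two_ne_zero (pow_ne_zero 2 hS), val_two hp2, zero_add]
  exact val_sq_even _

/-- Second step. -/
theorem step_two (hsq : Squarefree n) (hn : 2 < n) (hc : -(n : ℚ) ≠ 0) (r : ℕ × ℕ)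
    (hr : IsRep n r.1 r.2) (e f f' : Bool) (i j j' : ℕ × ℕ)
    (hi : IsRep n i.1 i.2) (hj : IsRep n j.1 j.2) (hj' : IsRep n j'.1 j'.2)
    (hs : IsSquare (FA hc r hr e f i j hi hj * FA hc r hr e f' i j' hi hj')) :
    f = f' ∧ j = j' := by
  -- cancel the common factors
  set A : QK (-(n : ℚ)) := (if e = true then mval _ (ptR hc (repQ hr)) else 1) *
    mval _ (Zp hc r i hr hi) with hA
  have hA0 : A ≠ 0 := by
    rw [hA]
    refine mul_ne_zero ?_ (mval_ne_zero _)
    split_ifs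
    · exact mval_ne_zero (ptR hc (repQ hr))
    · exact one_ne_zero
  set B : QK (-(n : ℚ)) := mval _ (ptR hc (repQ hr)) * mval _ (ptR hc (repQ' hr)) with hB
  have hB0 : B ≠ 0 := mul_ne_zero (mval_ne_zero _) (mval_ne_zero _)
  set C : QK (-(n : ℚ)) := mval _ (ptR hc (repQ hj)) with hC
  set C' : QK (-(n : ℚ)) := mval _ (ptR hc (repQ hj')) with hC'
  have hC0 : C ≠ 0 := mval_ne_zero _
  have hs1 : IsSquare (((if f = true then B else 1) * (if f' = true then B else 1)) * (C * C')) := by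
    have h1 : FA hc r hr e f i j hi hj * FA hc r hr e f' i j' hi hj' =
        (A * A) * (((if f = true then B else 1) * (if f' = true then B else 1)) * (C * C')) := by
      unfold FA
      rw [hA, hB, hC, hC']
      ring
    rw [h1] at hs
    exact isSquare_cancel (mul_ne_zero hA0 hA0) ⟨_, rfl⟩ hs
  have hpair : IsSquare (C * C' * (⟨(rho n j.1 j.2 j'.1 j'.2 : ℚ), 0⟩ : QK (-(n : ℚ)))) :=
    pair_isSquare hc hj hj'
  have hself : IsSquare (B * (⟨2 * ((r.1 : ℚ) ^ 2 + (r.2 : ℚ) ^ 2) ^ 2, 0⟩ : QK (-(n : ℚ)))) :=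
    self_isSquare hc hr
  set R : QK (-(n : ℚ)) := ⟨(rho n j.1 j.2 j'.1 j'.2 : ℚ), 0⟩ with hR
  set W : QK (-(n : ℚ)) := ⟨2 * ((r.1 : ℚ) ^ 2 + (r.2 : ℚ) ^ 2) ^ 2, 0⟩ with hW
  have hC0' : C' ≠ 0 := mval_ne_zero _
  have hS : ((r.1 : ℚ) ^ 2 + (r.2 : ℚ) ^ 2) ≠ 0 := by
    have := hr.pos
    positivity
  by_cases hff : f = f'
  · subst hff
    refine ⟨rfl, ?_⟩
    by_contra hne
    have hs2 : IsSquare (C * C') := by
      cases f
      · simpa using hs1
      · simp only [if_true] at hs1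
        exact isSquare_cancel (mul_ne_zero hB0 hB0) ⟨_, rfl⟩ hs1
    have hs3 : IsSquare R := isSquare_cancel (mul_ne_zero hC0 hC0') hs2 hpair
    apply rho_not_square hsq hn hj hj' hne (q := 1) one_ne_zero
    · intro p _ _
      simp
    · rw [mul_one]
      exact hs3
  · exfalso
    have hs2 : IsSquare (B * (C * C')) := by
      cases f <;> cases f' <;> simp_all
    by_cases hjj : j = j'
    · subst hjj
      have h1 : B * (C * C') = (C * C) * B := by ring
      rw [h1] at hs2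
      have h2 : IsSquare B := isSquare_cancel (mul_ne_zero hC0 hC0) ⟨_, rfl⟩ hs2
      have h3 : IsSquare W := isSquare_cancel hB0 h2 hself
      exact two_sq_not_square hsq hn hr h3
    · have h1 : IsSquare ((B * (C * C')) * ((C * C' * R) * (B * W))) := hs2.mul (hpair.mul hself)
      have h2 : (B * (C * C')) * ((C * C' * R) * (B * W)) =
          ((B * (C * C')) * (B * (C * C'))) * (R * W) := by ring
      rw [h2] at h1
      have hne0 : B * (C * C') ≠ 0 := mul_ne_zero hB0 (mul_ne_zero hC0 hC0')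
      have h3 : IsSquare (R * W) := isSquare_cancel (mul_ne_zero hne0 hne0) ⟨_, rfl⟩ h1
      rw [hR, hW, mk_mul] at h3
      exact rho_not_square hsq hn hj hj' hjj (mul_ne_zero two_ne_zero (pow_ne_zero 2 hS))
        (fun p hp hp2 => even_val_two_sq hr p hp hp2) h3

end A

/-- **The bound for the curve `y² = x³ - n x`.** -/
theorem mainA (n : ℕ) (hsq : Squarefree n) (hn : 2 < n) (S : Finset (ℕ × ℕ))
    (hS : ∀ q ∈ S, IsRep n q.1 q.2) :
    ((4 * S.card ^ 2 : ℕ) : Cardinal) ≤ 2 ^ Module.rank ℤ (curve (-(n : ℚ))).Point := by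
  rcases S.eq_empty_or_nonempty with hemp | ⟨r, hrS⟩
  · subst hemp
    simp
  have hr := hS r hrS
  have hc : -(n : ℚ) ≠ 0 := by
    have : n ≠ 0 := by omega
    have : (n : ℚ) ≠ 0 := by exact_mod_cast this
    exact neg_ne_zero.2 this
  have hF : Fact (∀ r : ℚ, r ^ 2 ≠ -(-(n : ℚ)) + 0 * r) := by
    refine ⟨fun x => ?_⟩
    rw [neg_neg, zero_mul, add_zero]
    exact n_not_sq hsq hn hr x
  have hT : ¬ IsSquare (mth (-(n : ℚ))) := by
    intro h
    obtain ⟨u, v, h1, h2⟩ := theta_square (q := 1) h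
    have h3 : (0 : ℚ) < n := by
      have : 0 < n := by omega
      exact_mod_cast this
    have h4 : u ^ 2 + n * v ^ 2 = 0 := by linear_combination h1
    have h5 : u ^ 2 = 0 := by nlinarith [sq_nonneg u, mul_nonneg h3.le (sq_nonneg v)]
    have h6 : u = 0 := pow_eq_zero_iff (two_ne_zero) |>.1 h5
    rw [h6] at h2
    norm_num at h2
  have key := card_le_of_rel (c := -(n : ℚ)) hT (ι := Bool × Bool × S × S)
    (fun x => gA hc r hr x.1 x.2.1 x.2.2.1 x.2.2.2 (hS _ x.2.2.1.2) (hS _ x.2.2.2.2))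
    (fun x => FA hc r hr x.1 x.2.1 x.2.2.1 x.2.2.2 (hS _ x.2.2.1.2) (hS _ x.2.2.2.2))
    (fun x => rel_gA hc r hr _ _ _ _ _ _)
    (by
      rintro ⟨e, f, ⟨i, hi⟩, ⟨j, hj⟩⟩ ⟨e', f', ⟨i', hi'⟩, ⟨j', hj'⟩⟩ hne
      have h1 := step_one hsq hn hc r hr e f e' f' i j i' j' (hS i hi) (hS j hj) (hS i' hi')
        (hS j' hj')
      refine ⟨?_, h1.1⟩
      intro hs
      obtain ⟨h2, h3⟩ := h1.2 hs
      subst h2
      subst h3
      obtain ⟨h4, h5⟩ := step_two hsq hn hc r hr e f f' i j j' (hS i hi) (hS j hj) (hS j' hj') hs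
      subst h4
      subst h5
      exact hne rfl)
  have hcard : Fintype.card (Bool × Bool × S × S) = 4 * S.card ^ 2 := by
    simp only [Fintype.card_prod, Fintype.card_bool, Fintype.card_coe]
    ring
  rw [hcard] at key
  exact key

end Pool.Agent.QuarticRank
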