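import Mathlib
import Pool.Agent.QuarticRank.MainA3

/-!
The bound `2 r ≤ 2 ^ rank` for the curve `y² = x³ + n² x`.
-/

namespace Pool.Agent.QuarticRank

open WeierstrassCurve WeierstrassCurve.Affine

section B

/-- The point `(n a² / b², n² a / b³)` on `y² = x³ + n² x`. -/
def ptG {n a b : ℚ} (hc : n ^ 2 ≠ 0) (hb : b ≠ 0) (h : a ^ 4 + b ^ 4 = n) :
    (curve (n ^ 2)).Point :=
  pt (x := n * a ^ 2 / b ^ 2) (y := n ^ 2 * a / b ^ 3) hc
    (by
      field_simp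
      linear_combination -(n ^ 3 * a ^ 2) * h)

theorem mval_ptG {n a b : ℚ} (hc : n ^ 2 ≠ 0) (hb : b ≠ 0) (h : a ^ 4 + b ^ 4 = n) :
    mval (n ^ 2) (ptG hc hb h) = ⟨n * a ^ 2 / b ^ 2, -1⟩ := rfl

theorem norm_ptG {n a b : ℚ} (hc : n ^ 2 ≠ 0) (hb : b ≠ 0) (h : a ^ 4 + b ^ 4 = n) :
    QuadraticAlgebra.norm (mval (n ^ 2) (ptG hc hb h)) = n * (n / b ^ 2) ^ 2 := by
  rw [mval_ptG, norm_mk]
  field_simp
  linear_combination n ^ 2 * h

theorem mul_rho'_isSquare {n a b c d : ℚ} (hn : n ≠ 0) (hb : b ≠ 0) (hd : d ≠ 0)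
    (h : a ^ 4 + b ^ 4 = n) (h' : c ^ 4 + d ^ 4 = n) :
    IsSquare ((⟨n * a ^ 2 / b ^ 2, -1⟩ * ⟨n * c ^ 2 / d ^ 2, -1⟩ : QK (n ^ 2)) *
      ⟨2 * (n + a ^ 2 * c ^ 2 - b ^ 2 * d ^ 2), 0⟩) := by
  refine ⟨⟨(n * a ^ 2 * c ^ 2 / (b * d) - n * (b * d) + n ^ 2 / (b * d)),
    -(a ^ 2 * d / b + c ^ 2 * b / d)⟩, ?_⟩
  ext
  · simp only [QuadraticAlgebra.re_mul, QuadraticAlgebra.im_mul]
    field_simp
    linear_combination (c ^ 4 + d ^ 4) * h + n * h'
  · simp only [QuadraticAlgebra.re_mul, QuadraticAlgebra.im_mul]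
    field_simp
    ring

variable {n : ℕ}

theorem n_sq_ne (hn : 2 < n) : (n : ℚ) ^ 2 ≠ 0 := by
  have : (n : ℚ) ≠ 0 := by
    have : n ≠ 0 := by omega
    exact_mod_cast this
  exact pow_ne_zero 2 this

theorem b_ne {a b : ℕ} (h : IsRep n a b) : (b : ℚ) ≠ 0 := by
  have := h.pos'
  positivity

/-- Parity contradiction for `q = -2uv`, `u² = n² v²`. -/
theorem theta_parity (hn : 2 < n) {q : ℚ} (hq : q ≠ 0) {p : ℕ} (hp : p.Prime)
    (hp2 : p ≠ 2) (hsq : Squarefree n) (hpn : p ∣ n) (hv : Even (padicValRat p q))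
    (hs : IsSquare (⟨0, -q⟩ : QK ((n : ℚ) ^ 2))) : False := by
  obtain ⟨u, v, h1, h2⟩ := theta_square hs
  have : Fact p.Prime := ⟨hp⟩
  have hn0 : (n : ℚ) ≠ 0 := by
    have : n ≠ 0 := by omega
    exact_mod_cast this
  have h3 : (u - n * v) * (u + n * v) = 0 := by linear_combination h1
  have hv0 : v ≠ 0 := by
    rintro rfl
    apply hq
    rw [h2]
    ring
  have h4 : ∃ s : ℚ, (s = 2 ∨ s = -2) ∧ q = s * (n * v ^ 2) := by
    rcases mul_eq_zero.1 h3 with h5 | h5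
    · exact ⟨-2, Or.inr rfl, by rw [h2]; linear_combination -(2 * v) * h5⟩
    · exact ⟨2, Or.inl rfl, by rw [h2]; linear_combination -(2 * v) * h5⟩
  obtain ⟨s, hs2, hqs⟩ := h4
  have hs0 : s ≠ 0 := by rcases hs2 with h | h <;> rw [h] <;> norm_num
  have hvs : padicValRat p s = 0 := by
    rcases hs2 with h | h
    · rw [h, val_two hp2]
    · rw [h, padicValRat.neg, val_two hp2]
  rw [hqs, padicValRat.mul hs0 (mul_ne_zero hn0 (pow_ne_zero 2 hv0)),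
    padicValRat.mul hn0 (pow_ne_zero 2 hv0), hvs, val_n hsq hpn, zero_add] at hv
  exact odd_ne_even (Odd.add_even ⟨0, by norm_num⟩ (val_sq_even (p := p) v)) hv

variable [hF : Fact (∀ r : ℚ, r ^ 2 ≠ -((n : ℚ) ^ 2) + 0 * r)]

/-- The representative of the descent class of the point with index `(e, j)`. -/
def FB (hc : (n : ℚ) ^ 2 ≠ 0) (r : ℕ × ℕ) (hr : IsRep n r.1 r.2) (e : Bool) (j : ℕ × ℕ)
    (hj : IsRep n j.1 j.2) : QK ((n : ℚ) ^ 2) :=
  (if e then mval _ (ptG hc (b_ne hr) (repQ hr)) else 1) * mval _ (ptG hc (b_ne hj) (repQ hj))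

/-- The point with index `(e, j)`. -/
def gB (hc : (n : ℚ) ^ 2 ≠ 0) (r : ℕ × ℕ) (hr : IsRep n r.1 r.2) (e : Bool) (j : ℕ × ℕ)
    (hj : IsRep n j.1 j.2) : (curve ((n : ℚ) ^ 2)).Point :=
  (if e then ptG hc (b_ne hr) (repQ hr) else 0) + ptG hc (b_ne hj) (repQ hj)

theorem rel_gB (hc : (n : ℚ) ^ 2 ≠ 0) (r : ℕ × ℕ) (hr : IsRep n r.1 r.2) (e : Bool) (j : ℕ × ℕ)
    (hj : IsRep n j.1 j.2) : Rel (gB hc r hr e j hj) (FB hc r hr e j hj) := by
  unfold gB FB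
  refine rel_add ?_ (rel_self _)
  cases e
  · exact rel_zero
  · exact rel_self _

omit hF in
theorem norm_FB (hc : (n : ℚ) ^ 2 ≠ 0) (r : ℕ × ℕ) (hr : IsRep n r.1 r.2) (e : Bool) (j : ℕ × ℕ)
    (hj : IsRep n j.1 j.2) :
    ∃ s : ℚ, s ≠ 0 ∧ QuadraticAlgebra.norm (FB hc r hr e j hj) =
      (if e then (n : ℚ) else 1) * (n * s ^ 2) := by
  have hn0 : (n : ℚ) ≠ 0 := by
    intro h0
    apply hc
    rw [h0]
    norm_num
  have hb : (r.2 : ℚ) ≠ 0 := b_ne hr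
  have hd : (j.2 : ℚ) ≠ 0 := b_ne hj
  refine ⟨(if e then (n : ℚ) / (r.2 : ℚ) ^ 2 else 1) * (n / (j.2 : ℚ) ^ 2), ?_, ?_⟩
  · cases e <;> simp [hn0, hb, hd]
  · unfold FB
    rw [map_mul, norm_ptG]
    cases e <;> simp only [if_true, if_false, Bool.false_eq_true, map_one, norm_ptG] <;> ring

/-- Squares force equal first indices. -/
theorem stepB_one (hsq : Squarefree n) (hn : 2 < n) (hc : (n : ℚ) ^ 2 ≠ 0) (r : ℕ × ℕ)
    (hr : IsRep n r.1 r.2) (e e' : Bool) (j j' : ℕ × ℕ)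
    (hj : IsRep n j.1 j.2) (hj' : IsRep n j'.1 j'.2)
    (h : IsSquare (FB hc r hr e j hj * FB hc r hr e' j' hj') ∨
      IsSquare (FB hc r hr e j hj * FB hc r hr e' j' hj' * mth ((n : ℚ) ^ 2))) : e = e' := by
  obtain ⟨s, hs, h1⟩ := norm_FB hc r hr e j hj
  obtain ⟨s', hs', h1'⟩ := norm_FB hc r hr e' j' hj'
  have hn0 : (n : ℚ) ≠ 0 := by
    intro h0
    apply hc
    rw [h0]
    norm_num
  have h2 : ∃ t : ℚ, t ≠ 0 ∧
      IsSquare (((if e then (n : ℚ) else 1) * (if e' then (n : ℚ) else 1)) * t ^ 2) := by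
    rcases h with h | h
    · have h3 := norm_isSquare h
      rw [map_mul, h1, h1'] at h3
      refine ⟨n * (s * s'), mul_ne_zero hn0 (mul_ne_zero hs hs'), ?_⟩
      convert h3 using 1
      ring
    · have h3 := norm_isSquare h
      have h4 : QuadraticAlgebra.norm (mth ((n : ℚ) ^ 2)) = (n : ℚ) ^ 2 := by
        rw [mth, norm_mk]
        ring
      rw [map_mul, map_mul, h1, h1', h4] at h3
      refine ⟨n * (n * (s * s')), mul_ne_zero hn0 (mul_ne_zero hn0 (mul_ne_zero hs hs')), ?_⟩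
      convert h3 using 1
      ring
  obtain ⟨t, ht, h5⟩ := h2
  by_contra hne
  have h6 : IsSquare ((n : ℚ) * t ^ 2) := by
    cases e <;> cases e' <;> simp_all
  obtain ⟨w, hw⟩ := h6
  apply n_not_sq hsq hn hr (w / t)
  field_simp
  linear_combination -hw

/-- Squares force equal second indices and the trivial class. -/
theorem stepB_two (hsq : Squarefree n) (hn : 2 < n) (hc : (n : ℚ) ^ 2 ≠ 0) (r : ℕ × ℕ)
    (hr : IsRep n r.1 r.2) (e : Bool) (j j' : ℕ × ℕ)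
    (hj : IsRep n j.1 j.2) (hj' : IsRep n j'.1 j'.2) (hT : ¬ IsSquare (mth ((n : ℚ) ^ 2))) :
    (IsSquare (FB hc r hr e j hj * FB hc r hr e j' hj') → j = j') ∧
    ¬ IsSquare (FB hc r hr e j hj * FB hc r hr e j' hj' * mth ((n : ℚ) ^ 2)) := by
  have hn0 : (n : ℚ) ≠ 0 := by
    intro h0
    apply hc
    rw [h0]
    norm_num
  set A : QK ((n : ℚ) ^ 2) :=
    (if e = true then mval _ (ptG hc (b_ne hr) (repQ hr)) else 1) with hA
  have hA0 : A ≠ 0 := by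
    rw [hA]
    split_ifs
    · exact mval_ne_zero (ptG hc (b_ne hr) (repQ hr))
    · exact one_ne_zero
  set C : QK ((n : ℚ) ^ 2) := mval _ (ptG hc (b_ne hj) (repQ hj)) with hC
  set C' : QK ((n : ℚ) ^ 2) := mval _ (ptG hc (b_ne hj') (repQ hj')) with hC'
  have hC0 : C ≠ 0 := mval_ne_zero _
  have hC0' : C' ≠ 0 := mval_ne_zero _
  have hFF : FB hc r hr e j hj * FB hc r hr e j' hj' = (A * A) * (C * C') := by
    unfold FB
    rw [hA, hC, hC']
    ring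
  have hpair : IsSquare (C * C' * (⟨(rho' n j.1 j.2 j'.1 j'.2 : ℚ), 0⟩ : QK ((n : ℚ) ^ 2))) := by
    have h1 := mul_rho'_isSquare hn0 (b_ne hj) (b_ne hj') (repQ hj) (repQ hj')
    rw [hC, hC', mval_ptG, mval_ptG]
    have h2 : (rho' n j.1 j.2 j'.1 j'.2 : ℚ) =
        2 * ((n : ℚ) + (j.1 : ℚ) ^ 2 * j'.1 ^ 2 - (j.2 : ℚ) ^ 2 * j'.2 ^ 2) := by
      unfold rho'
      push_cast
      ring
    rw [h2]
    exact h1
  have hrp : (rho' n j.1 j.2 j'.1 j'.2 : ℚ) ≠ 0 := by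
    have := rho'_pos hj hj' hn
    exact_mod_cast this.ne'
  constructor
  · intro hs
    rw [hFF] at hs
    have hs1 : IsSquare (C * C') := isSquare_cancel (mul_ne_zero hA0 hA0) ⟨_, rfl⟩ hs
    have hs2 := isSquare_cancel (mul_ne_zero hC0 hC0') hs1 hpair
    by_contra hne
    obtain ⟨p, hp1, hp2, hp3, hp4⟩ := exists_not_dvd_XI hsq hj hj' hne
    have : Fact p.Prime := ⟨hp1⟩
    have hodd := (rho_val_zero hsq hn hp2 hj hj' hp3 hp4).2
    obtain ⟨u, hu⟩ := rat_square hs2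
    rcases hu with hu | hu
    · rw [hu] at hodd
      exact odd_ne_even hodd (val_sq_even u)
    · have h1 : -((n : ℚ) ^ 2) * u ^ 2 = -(((n : ℚ) * u) ^ 2) := by ring
      rw [hu, h1, padicValRat.neg] at hodd
      exact odd_ne_even hodd (val_sq_even _)
  · intro hs
    rw [hFF] at hs
    by_cases hjj : j = j'
    · subst hjj
      have h1 : (A * A) * (C * C') * mth ((n : ℚ) ^ 2) =
          ((A * C) * (A * C)) * mth ((n : ℚ) ^ 2) := by
        rw [hC', ← hC]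
        ring
      rw [h1] at hs
      have hne0 : A * C ≠ 0 := mul_ne_zero hA0 hC0
      exact hT (isSquare_cancel (mul_ne_zero hne0 hne0) ⟨_, rfl⟩ hs)
    · have h1 : (A * A) * (C * C') * mth ((n : ℚ) ^ 2) =
          (A * A) * ((C * C') * mth ((n : ℚ) ^ 2)) := by ring
      rw [h1] at hs
      have hs1 := isSquare_cancel (mul_ne_zero hA0 hA0) ⟨_, rfl⟩ hs
      have hs2 := hs1.mul hpair
      have h2 : (C * C') * mth ((n : ℚ) ^ 2) *
          (C * C' * (⟨(rho' n j.1 j.2 j'.1 j'.2 : ℚ), 0⟩ : QK ((n : ℚ) ^ 2))) =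
          ((C * C') * (C * C')) * (⟨0, -(rho' n j.1 j.2 j'.1 j'.2 : ℚ)⟩ : QK ((n : ℚ) ^ 2)) := by
        have h3 : mth ((n : ℚ) ^ 2) * (⟨(rho' n j.1 j.2 j'.1 j'.2 : ℚ), 0⟩ : QK ((n : ℚ) ^ 2)) =
            (⟨0, -(rho' n j.1 j.2 j'.1 j'.2 : ℚ)⟩ : QK ((n : ℚ) ^ 2)) := by
          ext <;> simp [mth]
        rw [← h3]
        ring
      rw [h2] at hs2
      have hne0 : C * C' ≠ 0 := mul_ne_zero hC0 hC0'
      have hs3 := isSquare_cancel (mul_ne_zero hne0 hne0) ⟨_, rfl⟩ hs2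
      obtain ⟨p, hp1, hp2, hp3, hp4⟩ := exists_dvd_XI hsq hn hj hj'
      have : Fact p.Prime := ⟨hp1⟩
      have hz := (rho_val_odd hsq hn hp2 hj hj' hp3 hp4).2
      exact theta_parity hn hrp hp1 hp2 hsq hp3 (by rw [hz]; exact ⟨0, by norm_num⟩) hs3

end B

/-- **The bound for the curve `y² = x³ + n² x`.** -/
theorem mainB (n : ℕ) (hsq : Squarefree n) (hn : 2 < n) (S : Finset (ℕ × ℕ))
    (hS : ∀ q ∈ S, IsRep n q.1 q.2) :
    ((2 * S.card : ℕ) : Cardinal) ≤ 2 ^ Module.rank ℤ (curve ((n : ℚ) ^ 2)).Point := by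
  rcases S.eq_empty_or_nonempty with hemp | ⟨r, hrS⟩
  · subst hemp
    simp
  have hr := hS r hrS
  have hc : (n : ℚ) ^ 2 ≠ 0 := n_sq_ne hn
  have hpos : 0 < (n : ℚ) ^ 2 := by positivity
  have hF : Fact (∀ r : ℚ, r ^ 2 ≠ -((n : ℚ) ^ 2) + 0 * r) := by
    refine ⟨fun x h => ?_⟩
    nlinarith [sq_nonneg x]
  have hT : ¬ IsSquare (mth ((n : ℚ) ^ 2)) := by
    intro h
    obtain ⟨p, hp1, hp2, hp3⟩ := exists_odd_prime hsq hn hr
    have : Fact p.Prime := ⟨hp1⟩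
    exact theta_parity hn (q := 1) one_ne_zero hp1 hp2 hsq hp3 (by simp) h
  have key := card_le_of_rel (c := (n : ℚ) ^ 2) hT (ι := Bool × S)
    (fun x => gB hc r hr x.1 x.2 (hS _ x.2.2))
    (fun x => FB hc r hr x.1 x.2 (hS _ x.2.2))
    (fun x => rel_gB hc r hr _ _ _)
    (by
      rintro ⟨e, ⟨j, hj⟩⟩ ⟨e', ⟨j', hj'⟩⟩ hne
      constructor
      · intro hs
        have h1 := stepB_one hsq hn hc r hr e e' j j' (hS j hj) (hS j' hj') (Or.inl hs)
        subst h1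
        have h2 := (stepB_two hsq hn hc r hr e j j' (hS j hj) (hS j' hj') hT).1 hs
        subst h2
        exact hne rfl
      · intro hs
        have h1 := stepB_one hsq hn hc r hr e e' j j' (hS j hj) (hS j' hj') (Or.inr hs)
        subst h1
        exact (stepB_two hsq hn hc r hr e j j' (hS j hj) (hS j' hj') hT).2 hs)
  have hcard : Fintype.card (Bool × S) = 2 * S.card := by
    simp only [Fintype.card_prod, Fintype.card_bool, Fintype.card_coe]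
  rw [hcard] at key
  exact key

end Pool.Agent.QuarticRank
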