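import Mathlib
import Pool.Agent.QuarticRank.MainB

/-!
The number of representations and the final form of the two bounds.
-/

namespace Pool.Agent.QuarticRank

/-- The set of representations of `n` as a sum of two positive fourth powers, each unordered pair
being written in increasing order. -/
def repSet (n : ℕ) : Set (ℕ × ℕ) := {q | 0 < q.1 ∧ q.1 ≤ q.2 ∧ q.1 ^ 4 + q.2 ^ 4 = n}

/-- The number `r₄(n)` of different representations of `n` as a sum of two positive fourth
powers. -/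
noncomputable def r4 (n : ℕ) : ℕ := (repSet n).ncard

theorem repSet_finite (n : ℕ) : (repSet n).Finite := by
  apply Set.Finite.subset ((Set.finite_Iic n).prod (Set.finite_Iic n))
  rintro ⟨a, b⟩ ⟨-, -, h3⟩
  simp only at h3
  refine ⟨?_, ?_⟩
  · simp only [Set.mem_Iic]
    calc a ≤ a ^ 4 := Nat.le_self_pow (by norm_num) a
      _ ≤ n := by omega
  · simp only [Set.mem_Iic]
    calc b ≤ b ^ 4 := Nat.le_self_pow (by norm_num) b
      _ ≤ n := by omega

theorem isRep_of_mem {n : ℕ} {q : ℕ × ℕ} (h : q ∈ repSet n) : IsRep n q.1 q.2 :=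
  ⟨h.1, h.2.1, h.2.2⟩

theorem r4_one : r4 1 = 0 := by
  unfold r4
  rw [Set.ncard_eq_zero (repSet_finite 1)]
  ext ⟨a, b⟩
  simp only [repSet, Set.mem_ofPred_eq, Set.mem_empty_iff_false, iff_false, not_and]
  intro ha hab h
  have h1 : 1 ≤ a ^ 4 := Nat.one_le_pow _ _ ha
  have h2 : 1 ≤ b ^ 4 := Nat.one_le_pow _ _ (by omega)
  omega

theorem boundA (n : ℕ) (hsq : Squarefree n) (hn : n ≠ 2) :
    4 * (r4 n : Cardinal.{0}) ^ 2 ≤ 2 ^ Module.rank ℤ (curve (-(n : ℚ))).Point := by
  have hn0 : n ≠ 0 := hsq.ne_zero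
  by_cases h1 : n = 1
  · subst h1
    rw [r4_one]
    simp
  have hn2 : 2 < n := by omega
  have h := mainA n hsq hn2 (repSet_finite n).toFinset
    (fun q hq => isRep_of_mem ((repSet_finite n).mem_toFinset.1 hq))
  rw [← Set.ncard_eq_toFinset_card (repSet n) (repSet_finite n)] at h
  have h2 : ((4 * (repSet n).ncard ^ 2 : ℕ) : Cardinal.{0}) = 4 * (r4 n : Cardinal.{0}) ^ 2 := by
    push_cast
    rfl
  rw [← h2]
  exact h

theorem boundB (n : ℕ) (hsq : Squarefree n) (hn : n ≠ 2) :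
    2 * (r4 n : Cardinal.{0}) ≤ 2 ^ Module.rank ℤ (curve ((n : ℚ) ^ 2)).Point := by
  have hn0 : n ≠ 0 := hsq.ne_zero
  by_cases h1 : n = 1
  · subst h1
    rw [r4_one]
    simp
  have hn2 : 2 < n := by omega
  have h := mainB n hsq hn2 (repSet_finite n).toFinset
    (fun q hq => isRep_of_mem ((repSet_finite n).mem_toFinset.1 hq))
  rw [← Set.ncard_eq_toFinset_card (repSet n) (repSet_finite n)] at h
  have h2 : ((2 * (repSet n).ncard : ℕ) : Cardinal.{0}) = 2 * (r4 n : Cardinal.{0}) := by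
    push_cast
    rfl
  rw [← h2]
  exact h

/-- A lower bound for a cardinal exponent. -/
theorem le_of_pow_lt {κ : Cardinal.{0}} {m k : ℕ} (h : (m : Cardinal.{0}) ≤ 2 ^ κ)
    (hk : 2 ^ k < 2 * m) : (k : Cardinal.{0}) ≤ κ := by
  by_contra hcon
  push Not at hcon
  obtain ⟨j, hj⟩ := Cardinal.lt_aleph0.1 (lt_trans hcon (Cardinal.natCast_lt_aleph0))
  rw [hj] at hcon h
  have h1 : j < k := by exact_mod_cast hcon
  have h2 : m ≤ 2 ^ j := by exact_mod_cast h
  have h3 : 2 ^ (j + 1) ≤ 2 ^ k := Nat.pow_le_pow_right (by norm_num) h1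
  rw [pow_succ] at h3
  omega

end Pool.Agent.QuarticRank
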